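import Pool.Agent.Helper35.Boot.Times

/-!
# The `H`-process: copies completed by a new edge, extending partial injections
-/

open Finset SimpleGraph
open Pool.Agent.Helper35.Boot

namespace Pool.Agent.Helper33.Boot

universe u v

variable {V : Type u} {W : Type v}

/-- `φ` is a copy of `H - xy` in `K`. -/
def CopE (H : SimpleGraph W) (K : SimpleGraph V) (φ : W → V) (x y : W) : Prop :=
  Function.Injective φ ∧ ∀ p q, H.Adj p q → s(p, q) ≠ s(x, y) → K.Adj (φ p) (φ q)

/-- `φ` is a copy of `H` in `K`. -/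
def Cop (H : SimpleGraph W) (K : SimpleGraph V) (φ : W → V) : Prop :=
  Function.Injective φ ∧ ∀ p q, H.Adj p q → K.Adj (φ p) (φ q)

variable {H : SimpleGraph W} {K : SimpleGraph V}

lemma CopE.step_adj [Fintype V] {φ : W → V} {x y : W} (h : CopE H K φ x y) (hxy : H.Adj x y) :
    (step H K).Adj (φ x) (φ y) :=
  Pool.Agent.Helper35.Boot.step_adj H K φ h.1 hxy h.2

lemma CopE.cop [Fintype V] {φ : W → V} {x y : W} (h : CopE H K φ x y) (hxy : H.Adj x y) :
    Cop H (step H K) φ := by
  refine ⟨h.1, fun p q hpq => ?_⟩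
  by_cases hs : s(p, q) = s(x, y)
  · rw [Sym2.eq_iff] at hs
    rcases hs with ⟨rfl, rfl⟩ | ⟨rfl, rfl⟩
    · exact h.step_adj hxy
    · exact (h.step_adj hxy).symm
  · exact le_step H K (h.2 p q hpq hs)

lemma Cop.mono {K' : SimpleGraph V} {φ : W → V} (h : Cop H K φ) (hK : K ≤ K') : Cop H K' φ :=
  ⟨h.1, fun p q hpq => hK (h.2 p q hpq)⟩

lemma CopE.mono {K' : SimpleGraph V} {φ : W → V} {x y : W} (h : CopE H K φ x y) (hK : K ≤ K') :
    CopE H K' φ x y :=
  ⟨h.1, fun p q hpq hs => hK (h.2 p q hpq hs)⟩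

lemma new_edge [Fintype V] {a b : V} (h : (step H K).Adj a b) (hn : ¬ K.Adj a b) :
    ∃ (φ : W → V) (x y : W), H.Adj x y ∧ φ x = a ∧ φ y = b ∧ CopE H K φ x y := by
  classical
  rcases h with h | ⟨hab, hlt⟩
  · exact absurd h hn
  by_contra hcon
  push Not at hcon
  apply absurd hlt
  rw [not_lt, SimpleGraph.copyCount, SimpleGraph.copyCount]
  set K' : SimpleGraph V := K ⊔ SimpleGraph.edge a b with hK'
  have hK'adj : ∀ u w, K'.Adj u w → K.Adj u w ∨ (u = a ∧ w = b) ∨ (u = b ∧ w = a) := by
    intro u w huw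
    rw [hK', SimpleGraph.sup_adj, SimpleGraph.edge_adj] at huw
    rcases huw with h | ⟨h, -⟩
    · exact Or.inl h
    · rcases h with ⟨h1, h2⟩ | ⟨h1, h2⟩
      · exact Or.inr (Or.inl ⟨h1, h2⟩)
      · exact Or.inr (Or.inr ⟨h1, h2⟩)
  -- no copy uses `ab`
  have hno : ∀ S : K'.Subgraph, Nonempty (H ≃g S.coe) → ¬ S.Adj a b := by
    rintro S ⟨f⟩ hS
    have ha : a ∈ S.verts := S.edge_vert hS
    have hb : b ∈ S.verts := S.edge_vert hS.symm
    obtain ⟨x, hx⟩ := f.surjective ⟨a, ha⟩
    obtain ⟨y, hy⟩ := f.surjective ⟨b, hb⟩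
    have hφ : Function.Injective (fun p => (f p : V)) := Subtype.val_injective.comp f.injective
    have hxy : H.Adj x y := by
      rw [← f.map_adj_iff, hx, hy]
      exact hS
    refine hcon (fun p => (f p : V)) x y hxy (by simp [hx]) (by simp [hy]) ⟨hφ, ?_⟩
    intro p q hpq hs
    have h1 : S.Adj (f p) (f q) := by
      have := f.map_adj_iff.2 hpq
      exact this
    rcases hK'adj _ _ (S.adj_sub h1) with h | ⟨h2, h3⟩ | ⟨h2, h3⟩
    · exact h
    · exfalso
      apply hs
      have e1 : p = x := hφ (by simp [hx, h2])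
      have e2 : q = y := hφ (by simp [hy, h3])
      rw [e1, e2]
    · exfalso
      apply hs
      have e1 : p = y := hφ (by simp [hy, h2])
      have e2 : q = x := hφ (by simp [hx, h3])
      rw [e1, e2, Sym2.eq_swap]
  have hadj : ∀ S : K'.Subgraph, Nonempty (H ≃g S.coe) → ∀ u w, S.Adj u w → K.Adj u w := by
    intro S hS u w huw
    rcases hK'adj _ _ (S.adj_sub huw) with h | ⟨h2, h3⟩ | ⟨h2, h3⟩
    · exact h
    · subst h2; subst h3; exact absurd huw (hno S hS)
    · subst h2; subst h3; exact absurd huw.symm (hno S hS)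
  let F : K'.Subgraph → K.Subgraph := fun S =>
    { verts := S.verts
      Adj := fun u w => S.Adj u w ∧ K.Adj u w
      adj_sub := fun h => h.2
      edge_vert := fun h => S.edge_vert h.1
      symm := ⟨fun _ _ h => ⟨h.1.symm, h.2.symm⟩⟩ }
  refine Finset.card_le_card_of_injOn F ?_ ?_
  · intro S hS
    simp only [Finset.coe_filter, Finset.mem_univ, true_and, Set.mem_ofPred_eq] at hS ⊢
    obtain ⟨f⟩ := hS
    refine ⟨⟨f.toEquiv, ?_⟩⟩
    intro p q
    have h1 := f.map_adj_iff (v := p) (w := q)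
    rw [← h1]
    change (S.Adj (f p) (f q) ∧ K.Adj (f p) (f q)) ↔ S.Adj (f p) (f q)
    exact ⟨fun h => h.1, fun h => ⟨h, hadj S ⟨f⟩ _ _ h⟩⟩
  · intro S hS T hT hST
    simp only [Finset.coe_filter, Finset.mem_univ, true_and, Set.mem_ofPred_eq] at hS hT
    have hv0 : (F S).verts = (F T).verts := by rw [hST]
    have hv : S.verts = T.verts := hv0
    have hA : ∀ u w, (S.Adj u w ∧ K.Adj u w) ↔ (T.Adj u w ∧ K.Adj u w) := by
      intro u w
      have := congrArg (fun Z : K.Subgraph => Z.Adj u w) hST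
      exact iff_of_eq this
    ext u w
    · rw [hv]
    · constructor
      · intro h
        exact ((hA u w).1 ⟨h, hadj S hS u w h⟩).1
      · intro h
        exact ((hA u w).2 ⟨h, hadj T hT u w h⟩).1

/-- Extending partial injections into large target sets. -/
lemma exists_extend [Fintype W] [DecidableEq V] (P : Finset W) (f : W → V)
    (hf : Set.InjOn f P) (T : W → Finset V)
    (hT : ∀ w ∉ P, Fintype.card W ≤ (T w \ P.image f).card) :
    ∃ φ : W → V, Function.Injective φ ∧ (∀ w ∈ P, φ w = f w) ∧ ∀ w ∉ P, φ w ∈ T w := by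
  classical
  let t : W → Finset V := fun w => if w ∈ P then {f w} else T w \ P.image f
  have hall : ∀ s : Finset W, s.card ≤ (s.biUnion t).card := by
    intro s
    by_cases hs : s ⊆ P
    · have h1 : s.biUnion t = s.image f := by
        ext v
        simp only [Finset.mem_biUnion, Finset.mem_image]
        constructor
        · rintro ⟨w, hw, hv⟩
          simp only [t, if_pos (hs hw), Finset.mem_singleton] at hv
          exact ⟨w, hw, hv.symm⟩
        · rintro ⟨w, hw, rfl⟩
          exact ⟨w, hw, by simp [t, if_pos (hs hw)]⟩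
      rw [h1, Finset.card_image_of_injOn (hf.mono (by exact_mod_cast hs))]
    · obtain ⟨w, hw, hwP⟩ := Finset.not_subset.1 hs
      calc s.card ≤ Fintype.card W := Finset.card_le_univ s
        _ ≤ (T w \ P.image f).card := hT w hwP
        _ = (t w).card := by simp [t, if_neg hwP]
        _ ≤ (s.biUnion t).card := Finset.card_le_card (Finset.subset_biUnion_of_mem t hw)
  obtain ⟨φ, hφ, hφt⟩ := (Finset.all_card_le_biUnion_card_iff_exists_injective t).1 hall
  refine ⟨φ, hφ, fun w hw => ?_, fun w hw => ?_⟩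
  · have := hφt w
    simpa [t, if_pos hw] using this
  · have := hφt w
    simp only [t, if_neg hw, Finset.mem_sdiff] at this
    exact this.1

end Pool.Agent.Helper33.Boot
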