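import Pool.Agent.Helper33.Boot.Final

/-!
# The `H`-process when `H` has a bridge
-/

open Finset SimpleGraph
open Pool.Agent.Helper35.Boot

namespace Pool.Agent.Helper33.Boot

universe u v

variable {V : Type u} {W : Type v} {H : SimpleGraph W} {G : SimpleGraph V}

lemma proc_add [Fintype V] (s t : ℕ) : proc H (proc H G s) t = proc H G (s + t) := by
  induction t with
  | zero => rfl
  | succ t ih =>
    change step H (proc H (proc H G s) t) = step H (proc H G (s + t))
    rw [ih]

lemma runTime_le_add [Fintype V] (s : ℕ) :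
    runTime H G ≤ s + runTime H (proc H G s) := by
  have h := runTime_spec H (proc H G s)
  rw [proc_add, proc_add] at h
  exact Nat.sInf_le h

/-! ### Seeds -/

lemma hit_or_disjoint [Fintype V] [Fintype W] [DecidableEq V] (K : SimpleGraph V) (L : ℕ) :
    (∃ T : Finset V, T.card ≤ L * Fintype.card W ∧
      ∀ φ : W → V, Cop H K φ → ∃ p, φ p ∈ T) ∨
    (∃ Φ : Fin L → W → V, (∀ i, Cop H K (Φ i)) ∧
      ∀ i j, i ≠ j → ∀ p q, Φ i p ≠ Φ j q) := by
  classical
  by_cases hT : ∃ T : Finset V, T.card ≤ L * Fintype.card W ∧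
      ∀ φ : W → V, Cop H K φ → ∃ p, φ p ∈ T
  · exact Or.inl hT
  right
  push Not at hT
  have key : ∀ k ≤ L, ∃ Φ : Fin k → W → V, (∀ i, Cop H K (Φ i)) ∧
      ∀ i j, i ≠ j → ∀ p q, Φ i p ≠ Φ j q := by
    intro k
    induction k with
    | zero =>
      intro _
      exact ⟨fun i => i.elim0, fun i => i.elim0, fun i => i.elim0⟩
    | succ k ih =>
      intro hk
      obtain ⟨Φ, hΦ, hΦd⟩ := ih (by omega)
      let T : Finset V := Finset.univ.biUnion fun i : Fin k => Finset.univ.image (Φ i)
      have hmem : ∀ i p, Φ i p ∈ T := by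
        intro i p
        simp only [T, Finset.mem_biUnion, Finset.mem_univ, true_and, Finset.mem_image]
        exact ⟨i, p, rfl⟩
      have hTc : T.card ≤ L * Fintype.card W := by
        refine (Finset.card_biUnion_le_card_mul _ _ (Fintype.card W) ?_).trans ?_
        · intro i _
          exact Finset.card_image_le.trans (Finset.card_le_univ _)
        · rw [Finset.card_univ, Fintype.card_fin]
          exact Nat.mul_le_mul_right _ (by omega)
      obtain ⟨φ, hφ, hφT⟩ := hT T hTc
      refine ⟨Fin.cons φ Φ, ?_, ?_⟩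
      · intro i
        refine Fin.cases ?_ (fun i => ?_) i
        · simpa using hφ
        · simpa using hΦ i
      · intro i j
        refine Fin.cases ?_ (fun i => ?_) i <;> refine Fin.cases ?_ (fun j => ?_) j
        · intro h; exact absurd rfl h
        · intro _ p q
          simp only [Fin.cons_zero, Fin.cons_succ]
          intro h
          exact hφT p (h ▸ hmem j q)
        · intro _ p q
          simp only [Fin.cons_zero, Fin.cons_succ]
          intro h
          exact hφT q (h ▸ hmem i p)
        · intro hij p q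
          simp only [Fin.cons_succ]
          exact hΦd i j (fun h => hij (by rw [h])) p q
  exact key L le_rfl

/-- two disjoint copies of `H` are joined across the bridge. -/
lemma bridge_join [Fintype V] {K : SimpleGraph V} {p q : W} (hpq : H.Adj p q)
    (hbr : ¬ (H.deleteEdges {s(p, q)}).Reachable p q) {φ ψ : W → V} (hφ : Cop H K φ)
    (hψ : Cop H K ψ) (hd : ∀ a b, φ a ≠ ψ b) : (step H K).Adj (φ p) (ψ q) := by
  classical
  let θ : W → V := fun w => if (H.deleteEdges {s(p, q)}).Reachable p w then φ w else ψ w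
  have e1 : ∀ w, (H.deleteEdges {s(p, q)}).Reachable p w → θ w = φ w := fun w hw => if_pos hw
  have e2 : ∀ w, ¬ (H.deleteEdges {s(p, q)}).Reachable p w → θ w = ψ w := fun w hw => if_neg hw
  have hcop : CopE H K θ p q := by
    refine ⟨?_, fun a b hab hs => ?_⟩
    · intro a b hab
      by_cases ha : (H.deleteEdges {s(p, q)}).Reachable p a <;>
        by_cases hb : (H.deleteEdges {s(p, q)}).Reachable p b
      · rw [e1 a ha, e1 b hb] at hab; exact hφ.1 hab
      · rw [e1 a ha, e2 b hb] at hab; exact absurd hab (hd a b)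
      · rw [e2 a ha, e1 b hb] at hab; exact absurd hab.symm (hd b a)
      · rw [e2 a ha, e2 b hb] at hab; exact hψ.1 hab
    · have hdel : (H.deleteEdges {s(p, q)}).Adj a b := by
        rw [SimpleGraph.deleteEdges_adj]
        exact ⟨hab, by simpa using hs⟩
      by_cases ha : (H.deleteEdges {s(p, q)}).Reachable p a
      · rw [e1 a ha, e1 b (ha.trans hdel.reachable)]
        exact hφ.2 a b hab
      · rw [e2 a ha, e2 b (fun h => ha (h.trans hdel.symm.reachable))]
        exact hψ.2 a b hab
  have := hcop.step_adj hpq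
  rwa [e1 p (Reachable.refl _), e2 q hbr] at this

lemma seed_bridge [Fintype V] {K : SimpleGraph V} {p q : W} (hpq : H.Adj p q)
    (hbr : ¬ (H.deleteEdges {s(p, q)}).Reachable p q) {L : ℕ} (Φ : Fin (L + L) → W → V)
    (hΦ : ∀ i, Cop H K (Φ i)) (hΦd : ∀ i j, i ≠ j → ∀ p q, Φ i p ≠ Φ j q) :
    Seed (step H K) L := by
  classical
  refine ⟨Finset.univ.image fun i : Fin L => Φ (Fin.castAdd L i) p,
    Finset.univ.image fun i : Fin L => Φ (Fin.natAdd L i) q, ?_, ?_, ?_⟩
  · rw [Finset.card_image_of_injective, Finset.card_univ, Fintype.card_fin]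
    intro i j hij
    by_contra hne
    exact hΦd _ _ (fun h => hne (Fin.castAdd_injective L L h)) p p hij
  · rw [Finset.card_image_of_injective, Finset.card_univ, Fintype.card_fin]
    intro i j hij
    by_contra hne
    exact hΦd _ _ (fun h => hne (Fin.natAdd_injective L L h)) q q hij
  · intro a ha b hb
    simp only [Finset.mem_image, Finset.mem_univ, true_and] at ha hb
    obtain ⟨i, rfl⟩ := ha
    obtain ⟨j, rfl⟩ := hb
    refine bridge_join hpq hbr (hΦ _) (hΦ _) (hΦd _ _ ?_)
    intro h
    have := congrArg Fin.val h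
    simp only [Fin.val_castAdd, Fin.val_natAdd] at this
    omega

lemma count_bridge [Fintype V] [Fintype W] (A : SimpleGraph V) {p₀ q₀ : W}
    (hpq : H.Adj p₀ q₀) (hiso : ∀ p, ∃ q, (H.deleteEdges {s(p₀, q₀)}).Adj p q) (D : Finset V)
    (hD : ∀ φ : W → V, Cop H (step H A) φ → ∃ p, φ p ∈ D) [Fintype A.edgeSet] :
    A.edgeFinset.card ≤ extremalNumber (Fintype.card V) (H.deleteEdges {s(p₀, q₀)}) +
      Fintype.card V * D.card := by
  classical
  obtain ⟨B, hB⟩ : ∃ B : SimpleGraph V, ∀ a b, B.Adj a b ↔ A.Adj a b ∧ a ∉ D ∧ b ∉ D :=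
    ⟨{ Adj := fun a b => A.Adj a b ∧ a ∉ D ∧ b ∉ D
       symm := ⟨fun _ _ h => ⟨h.1.symm, h.2.2, h.2.1⟩⟩
       loopless := ⟨fun _ h => A.loopless.irrefl _ h.1⟩ }, fun _ _ => Iff.rfl⟩
  have hfree : (H.deleteEdges {s(p₀, q₀)}).Free B := by
    rintro ⟨φ⟩
    have hE : CopE H A φ p₀ q₀ := by
      refine ⟨φ.injective, fun a b hab hs => ?_⟩
      have : (H.deleteEdges {s(p₀, q₀)}).Adj a b := by
        rw [SimpleGraph.deleteEdges_adj]
        exact ⟨hab, by simpa using hs⟩
      exact ((hB _ _).1 (φ.toHom.map_adj this)).1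
    obtain ⟨r, hr⟩ := hD φ (hE.cop hpq)
    obtain ⟨q, hq⟩ := hiso r
    exact ((hB _ _).1 (φ.toHom.map_adj hq)).2.1 hr
  have h1 := two_mul_edges B
  have h2 : ∀ i : Fintype B.edgeSet, (@SimpleGraph.edgeFinset V B i).card ≤
      extremalNumber (Fintype.card V) (H.deleteEdges {s(p₀, q₀)}) := fun i =>
    (card_edgeFinset_inst B _ _).trans_le (card_edgeFinset_le_extremalNumber hfree)
  have h4 := card_pairs_le (fun a b : V => b ∈ D) D.card (fun a s hs => Finset.card_le_card hs)
  have h5 := card_pairs_le' (fun a b : V => a ∈ D) D.card (fun a s hs => Finset.card_le_card hs)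
  have h6 : (Finset.univ.filter fun p : V × V => A.Adj p.1 p.2).card ≤
      (Finset.univ.filter fun p : V × V => B.Adj p.1 p.2).card +
      (Finset.univ.filter fun p : V × V => p.2 ∈ D).card +
      (Finset.univ.filter fun p : V × V => p.1 ∈ D).card := by
    refine le_trans (Finset.card_le_card (t := (Finset.univ.filter fun p : V × V =>
      B.Adj p.1 p.2) ∪ (Finset.univ.filter fun p : V × V => p.2 ∈ D) ∪
      (Finset.univ.filter fun p : V × V => p.1 ∈ D)) ?_) ?_
    · intro p hp
      simp only [Finset.mem_filter, Finset.mem_univ, true_and, Finset.mem_union] at hp ⊢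
      rw [hB]
      tauto
    · refine (Finset.card_union_le _ _).trans (Nat.add_le_add_right ?_ _)
      exact Finset.card_union_le _ _
  have h7 : 2 * A.edgeFinset.card =
      (Finset.univ.filter fun p : V × V => A.Adj p.1 p.2).card := by
    rw [← two_mul_edges A, card_edgeFinset_inst A]
  rw [← h1] at h6
  rw [← h7] at h6
  have h10 : 2 * B.edgeFinset.card ≤
      2 * extremalNumber (Fintype.card V) (H.deleteEdges {s(p₀, q₀)}) :=
    Nat.mul_le_mul_left 2 (h2 _)
  omega

/-- a host becomes a clique. -/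
lemma clique_of_host [Fintype V] [Finite W] {K : SimpleGraph V} {R : Bool → Bool → Prop}
    {X : Bool → Finset V} {p q : W} (hpq : H.Adj p q)
    (hbr : ¬ (H.deleteEdges {s(p, q)}).Reachable p q)
    (hcol : ∀ x i, ∃ c, Colors H R c ∧ c x = i)
    (hh : Host R K (Nat.card W + 3) X) :
    ∀ u ∈ X true, ∀ w ∈ X true, u ≠ w → (step H K).Adj u w := by
  classical
  have := Fintype.ofFinite W
  rw [Nat.card_eq_fintype_card] at hh
  intro u hu w hw huw
  obtain ⟨c₁, hc₁, hc₁p⟩ := hcol p true
  obtain ⟨c₂, hc₂, hc₂q⟩ := hcol q true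
  let c : W → Bool := fun r => if (H.deleteEdges {s(p, q)}).Reachable p r then c₁ r else c₂ r
  have hcp : c p = true := by simp only [c, if_pos (Reachable.refl _)]; exact hc₁p
  have hcq : c q = true := by simp only [c, if_neg hbr]; exact hc₂q
  let f : W → V := fun r => if r = p then u else w
  have hf : Set.InjOn f ({p, q} : Finset W) := by
    intro a ha b hb hab
    simp only [Finset.coe_insert, Finset.coe_singleton, Set.mem_insert_iff,
      Set.mem_singleton_iff] at ha hb
    rcases ha with rfl | rfl <;> rcases hb with rfl | rfl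
    · rfl
    · simp [f, hpq.ne.symm, huw] at hab
    · simp [f, hpq.ne.symm, huw.symm] at hab
    · rfl
  obtain ⟨φ, hφ, hφP, hφX⟩ := hh.extend c {p, q} (Finset.card_le_two.trans (by norm_num)) f hf
  have e1 : φ p = u := by rw [hφP p (by simp)]; simp [f]
  have e2 : φ q = w := by rw [hφP q (by simp)]; simp [f, hpq.ne.symm]
  have hX : ∀ r, φ r ∈ X (c r) := by
    intro r
    by_cases hr : r ∈ ({p, q} : Finset W)
    · simp only [Finset.mem_insert, Finset.mem_singleton] at hr
      rcases hr with rfl | rfl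
      · rw [e1, hcp]; exact hu
      · rw [e2, hcq]; exact hw
    · exact hφX r hr
  have hcop : CopE H K φ p q := by
    refine ⟨hφ, fun a b hab hs => ?_⟩
    have hdel : (H.deleteEdges {s(p, q)}).Adj a b := by
      rw [SimpleGraph.deleteEdges_adj]
      exact ⟨hab, by simpa using hs⟩
    have hR : R (c a) (c b) := by
      by_cases ha : (H.deleteEdges {s(p, q)}).Reachable p a
      · simp only [c, if_pos ha, if_pos (ha.trans hdel.reachable)]
        exact hc₁ a b hab
      · simp only [c, if_neg ha, if_neg (fun h => ha (Reachable.trans h hdel.symm.reachable))]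
        exact hc₂ a b hab
    exact hh.adj _ _ hR _ (hX a) _ (hX b) (fun h => hab.ne (hφ h))
  have := hcop.step_adj hpq
  rwa [e1, e2] at this

end Pool.Agent.Helper33.Boot
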