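import Pool.Agent.Helper33.Boot.Bridge

/-!
# The `H`-process when `H` has a bridge: after the clique has appeared
-/

open Finset SimpleGraph
open Pool.Agent.Helper35.Boot

namespace Pool.Agent.Helper33.Boot

universe u v

variable {V : Type u} {W : Type v} {H : SimpleGraph W} {G : SimpleGraph V}

/-- `z` is joined to all of `Y` at time `t`. -/
def Gd [Fintype V] (H : SimpleGraph W) (G : SimpleGraph V) (Y : Finset V) (t : ℕ) (z : V) :
    Prop :=
  ∀ u ∈ Y, u ≠ z → (proc H G t).Adj z u

/-- `b` is a good neighbour of `a` two steps before `a` becomes good. -/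
def NQ [Fintype V] (H : SimpleGraph W) (G : SimpleGraph V) (Y : Finset V) (a b : V) : Prop :=
  ∃ s, (proc H G s).Adj a b ∧ Gd H G Y s b ∧ ¬ Gd H G Y (s + 2) a

variable {Y : Finset V}

lemma Gd.mono [Fintype V] {s t : ℕ} {z : V} (h : Gd H G Y s z) (hst : s ≤ t) :
    Gd H G Y t z :=
  fun u hu huz => proc_mono H G hst (h u hu huz)

lemma Gd.of_mem [Fintype V] (hY : ∀ u ∈ Y, ∀ w ∈ Y, u ≠ w → G.Adj u w) {z : V} (hz : z ∈ Y)
    (t : ℕ) : Gd H G Y t z :=
  fun u hu huz => proc_mono H G (Nat.zero_le t) (hY z hz u hu huz.symm)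

section

variable [Fintype V] [Finite W] {p q : W}

lemma Gd.conn (hY : ∀ u ∈ Y, ∀ w ∈ Y, u ≠ w → G.Adj u w) (hYc : 3 * Nat.card W + 3 ≤ Y.card)
    (hpq : H.Adj p q) {t : ℕ} {z z' : V} (hz : Gd H G Y t z) (hz' : Gd H G Y t z')
    (hne : z ≠ z') : (proc H G (t + 1)).Adj z z' := by
  have hh : Host (fun _ _ => True) (proc H G t) (Nat.card W + 3) (fun _ => Y) :=
    ⟨fun _ => by omega, fun _ _ _ u hu w hw huw =>
      proc_mono H G (Nat.zero_le t) (hY u hu w hw huw)⟩
  exact connect (c := fun _ => true) (i := true) (j := true) hh (fun _ _ _ => trivial) hpq rfl rfl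
    (fun _ _ u hu huz => hz u hu huz) (fun _ _ u hu huz => hz' u hu huz) hne

lemma Gd.many (hY : ∀ u ∈ Y, ∀ w ∈ Y, u ≠ w → G.Adj u w) (hYc : 3 * Nat.card W + 3 ≤ Y.card)
    (hpq : H.Adj p q) {t : ℕ} {z : V} (s : Finset V)
    (hs : ∀ b ∈ s, Gd H G Y t b ∧ (proc H G t).Adj z b) (hsc : Nat.card W + 2 ≤ s.card) :
    Gd H G Y (t + 2) z := by
  classical
  have := Fintype.ofFinite W
  intro u hu huz
  let f : W → V := fun r => if r = p then z else u
  have hf : Set.InjOn f ({p, q} : Finset W) := by
    intro a ha b hb hab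
    simp only [Finset.coe_insert, Finset.coe_singleton, Set.mem_insert_iff,
      Set.mem_singleton_iff] at ha hb
    rcases ha with rfl | rfl <;> rcases hb with rfl | rfl
    · rfl
    · simp [f, hpq.ne.symm, huz.symm] at hab
    · simp [f, hpq.ne.symm, huz] at hab
    · rfl
  obtain ⟨φ, hφ, hφP, hφX⟩ := exists_extend {p, q} f hf (fun _ => s) (by
      intro r _
      have h2 : (({p, q} : Finset W).image f).card ≤ 2 :=
        Finset.card_image_le.trans Finset.card_le_two
      have h3 : s.card - (({p, q} : Finset W).image f).card ≤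
        (s \ ({p, q} : Finset W).image f).card := Finset.le_card_sdiff _ _
      rw [Nat.card_eq_fintype_card] at hsc
      omega)
  have e1 : φ p = z := by rw [hφP p (by simp)]; simp [f]
  have e2 : φ q = u := by rw [hφP q (by simp)]; simp [f, hpq.ne.symm]
  have hin : ∀ r, r ≠ p → r ≠ q → φ r ∈ s := fun r h1 h2 => hφX r (by simp [h1, h2])
  have hgd : ∀ r, r ≠ p → Gd H G Y t (φ r) := by
    intro r h1
    by_cases h2 : r = q
    · rw [h2, e2]; exact Gd.of_mem hY hu t
    · exact (hs _ (hin r h1 h2)).1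
  have hcop : CopE H (proc H G (t + 1)) φ p q := by
    refine ⟨hφ, fun a b hab hs' => ?_⟩
    by_cases ha : a = p
    · have hb : b ≠ q := fun h => hs' (by rw [ha, h])
      have hb' : b ≠ p := fun h => hab.ne (ha.trans h.symm)
      rw [ha, e1]
      exact proc_mono H G (Nat.le_succ t) (hs _ (hin b hb' hb)).2
    by_cases hb : b = p
    · have ha' : a ≠ q := fun h => hs' (by rw [hb, h, Sym2.eq_swap])
      rw [hb, e1]
      exact (proc_mono H G (Nat.le_succ t) (hs _ (hin a ha ha')).2).symm
    · exact Gd.conn hY hYc hpq (hgd a ha) (hgd b hb) (fun h => hab.ne (hφ h))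
  have := hcop.step_adj hpq
  rw [e1, e2] at this
  exact this

lemma Gd.root (hY : ∀ u ∈ Y, ∀ w ∈ Y, u ≠ w → G.Adj u w) (hYc : 3 * Nat.card W + 3 ≤ Y.card)
    (hpq : H.Adj p q) (hbr : ¬ (H.deleteEdges {s(p, q)}).Reachable p q) {t : ℕ} {φ : W → V}
    (hφ : Cop H (proc H G t) φ) : Gd H G Y (t + 3) (φ p) := by
  classical
  have := Fintype.ofFinite W
  have hYc' : 3 * Fintype.card W + 3 ≤ Y.card := by rwa [← Nat.card_eq_fintype_card]
  have hs1 : ∀ u ∈ Y \ Finset.univ.image φ, (proc H G (t + 1)).Adj (φ p) u := by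
    intro u hu
    rw [Finset.mem_sdiff] at hu
    obtain ⟨huY, huφ⟩ := hu
    have huφ' : ∀ r, φ r ≠ u := fun r h => huφ (Finset.mem_image.2 ⟨r, Finset.mem_univ _, h⟩)
    let P : Finset W := Finset.univ.filter fun w =>
      (H.deleteEdges {s(p, q)}).Reachable p w ∨ w = q
    have hP : ∀ w, w ∈ P ↔ (H.deleteEdges {s(p, q)}).Reachable p w ∨ w = q := by simp [P]
    let f : W → V := fun r => if r = q then u else φ r
    have hf : Set.InjOn f P := by
      intro a _ b _ hab
      by_cases ha : a = q <;> by_cases hb : b = q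
      · rw [ha, hb]
      · simp only [f, if_pos ha, if_neg hb] at hab
        exact absurd hab.symm (huφ' b)
      · simp only [f, if_pos hb, if_neg ha] at hab
        exact absurd hab (huφ' a)
      · simp only [f, if_neg hb, if_neg ha] at hab
        exact hφ.1 hab
    obtain ⟨ψ, hψ, hψP, hψX⟩ := exists_extend P f hf (fun _ => Y) (by
        intro r _
        have h2 : (P.image f).card ≤ Fintype.card W :=
          Finset.card_image_le.trans (Finset.card_le_univ _)
        have h3 : Y.card - (P.image f).card ≤ (Y \ P.image f).card := Finset.le_card_sdiff _ _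
        omega)
    have e1 : ∀ r, (H.deleteEdges {s(p, q)}).Reachable p r → ψ r = φ r := by
      intro r hr
      rw [hψP r ((hP r).2 (Or.inl hr))]
      have : r ≠ q := fun h => hbr (h ▸ hr)
      simp [f, this]
    have e2 : ψ q = u := by
      rw [hψP q ((hP q).2 (Or.inr rfl))]
      simp [f]
    have hY' : ∀ r, ¬ (H.deleteEdges {s(p, q)}).Reachable p r → ψ r ∈ Y := by
      intro r hr
      by_cases h : r = q
      · rw [h, e2]; exact huY
      · exact hψX r (fun h' => ((hP r).1 h').elim hr h)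
    have hcop : CopE H (proc H G t) ψ p q := by
      refine ⟨hψ, fun a b hab hs => ?_⟩
      have hdel : (H.deleteEdges {s(p, q)}).Adj a b := by
        rw [SimpleGraph.deleteEdges_adj]
        exact ⟨hab, by simpa using hs⟩
      by_cases ha : (H.deleteEdges {s(p, q)}).Reachable p a
      · rw [e1 a ha, e1 b (ha.trans hdel.reachable)]
        exact hφ.2 a b hab
      · exact proc_mono H G (Nat.zero_le t) (hY _ (hY' a ha) _
          (hY' b (fun h => ha (h.trans hdel.symm.reachable))) (fun h => hab.ne (hψ h)))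
    have := hcop.step_adj hpq
    rw [e1 p (Reachable.refl _), e2] at this
    exact this
  refine Gd.many (t := t + 1) hY hYc hpq (Y \ Finset.univ.image φ) ?_ ?_
  · intro b hb
    exact ⟨Gd.of_mem hY (Finset.mem_sdiff.1 hb).1 _, hs1 b hb⟩
  · have h2 : (Finset.univ.image φ).card ≤ Fintype.card W :=
      Finset.card_image_le.trans (Finset.card_le_univ _)
    have h3 : Y.card - (Finset.univ.image φ).card ≤ (Y \ Finset.univ.image φ).card :=
      Finset.le_card_sdiff _ _
    rw [Nat.card_eq_fintype_card]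
    omega

lemma NQ_card (hY : ∀ u ∈ Y, ∀ w ∈ Y, u ≠ w → G.Adj u w) (hYc : 3 * Nat.card W + 3 ≤ Y.card)
    (hpq : H.Adj p q) (a : V) (S : Finset V) (hS : ∀ b ∈ S, NQ H G Y a b) :
    S.card ≤ Nat.card W + 1 := by
  classical
  by_contra hcon
  rw [not_le] at hcon
  have hne : S.Nonempty := by
    rw [← Finset.card_pos]; omega
  let τ : V → ℕ := fun b => if h : NQ H G Y a b then Classical.choose h else 0
  have hτ : ∀ b ∈ S, (proc H G (τ b)).Adj a b ∧ Gd H G Y (τ b) b ∧ ¬ Gd H G Y (τ b + 2) a := by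
    intro b hb
    simp only [τ, dif_pos (hS b hb)]
    exact Classical.choose_spec (hS b hb)
  obtain ⟨b₀, hb₀, hmax⟩ := Finset.exists_max_image S τ hne
  apply (hτ b₀ hb₀).2.2
  refine Gd.many hY hYc hpq S (fun b hb => ?_) (by omega)
  exact ⟨(hτ b hb).2.1.mono (hmax b hb), proc_mono H G (hmax b hb) (hτ b hb).1⟩

end

/-- the edges which exist well before one of their ends becomes good. -/
def outer [Fintype V] (H : SimpleGraph W) (G : SimpleGraph V) (Y : Finset V) (c : ℕ) :
    SimpleGraph V where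
  Adj a b := ∃ s, (proc H G s).Adj a b ∧ ¬ Gd H G Y (s + c) a ∧ ¬ Gd H G Y (s + c) b
  symm := ⟨fun _ _ h => by
    obtain ⟨s, h1, h2, h3⟩ := h
    exact ⟨s, h1.symm, h3, h2⟩⟩
  loopless := ⟨fun _ h => by
    obtain ⟨s, h1, -⟩ := h
    exact h1.ne rfl⟩

open scoped Classical in
lemma outer_edges [Fintype V] [Fintype W] {p q : W}
    (hY : ∀ u ∈ Y, ∀ w ∈ Y, u ≠ w → G.Adj u w) (hYc : 3 * Nat.card W + 3 ≤ Y.card)
    (hpq : H.Adj p q) (hbr : ¬ (H.deleteEdges {s(p, q)}).Reachable p q)
    {p₀ q₀ : W} (hpq₀ : H.Adj p₀ q₀) (hiso : ∀ p, ∃ q, (H.deleteEdges {s(p₀, q₀)}).Adj p q)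
    (hreach : ∀ g, (H.deleteEdges {s(p₀, q₀)}).Reachable p g ∨
      (H.deleteEdges {s(p₀, q₀)}).Reachable q g) :
    (outer H G Y (2 * Nat.card W + 4)).edgeFinset.card ≤
      2 ^ (2 * (Nat.card W + 1) + 2) *
        extremalNumber (Fintype.card V) (H.deleteEdges {s(p₀, q₀)}) +
      Fintype.card V * (0 + (Nat.card W + 1)) := by
  set F := H.deleteEdges {s(p₀, q₀)} with hF
  refine few_edges (outer H G Y (2 * Nat.card W + 4)) F
    (fun a => Finset.univ.filter fun b => NQ H G Y a b) (fun _ => True) (Nat.card W + 1) 0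
    ?_ ?_ ?_ ?_
  · intro a
    exact NQ_card hY hYc hpq a _ (fun b hb => (Finset.mem_filter.1 hb).2)
  · intro a ha
    obtain ⟨s, h1, -⟩ := (Finset.mem_filter.1 ha).2
    exact h1.ne rfl
  · intro w hw
    exact absurd trivial hw
  · intro S φ hφ hhom hS
    -- witnesses
    let E : Finset (W × W) := Finset.univ.filter fun e => F.Adj e.1 e.2
    have hE : ∀ e, e ∈ E ↔ F.Adj e.1 e.2 := by simp [E]
    have hEne : E.Nonempty := by
      obtain ⟨r, hr⟩ := hiso p
      exact ⟨(p, r), (hE _).2 hr⟩
    let τ : W × W → ℕ := fun e =>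
      if h : (outer H G Y (2 * Nat.card W + 4)).Adj (φ e.1) (φ e.2) then Classical.choose h else 0
    have hτ : ∀ e ∈ E, (proc H G (τ e)).Adj (φ e.1) (φ e.2) ∧
        ¬ Gd H G Y (τ e + (2 * Nat.card W + 4)) (φ e.1) ∧
        ¬ Gd H G Y (τ e + (2 * Nat.card W + 4)) (φ e.2) := by
      intro e he
      have h : (outer H G Y (2 * Nat.card W + 4)).Adj (φ e.1) (φ e.2) :=
        hhom _ _ ((hE e).1 he)
      simp only [τ, dif_pos h]
      exact Classical.choose_spec h
    obtain ⟨⟨g, g'⟩, hg, hmax⟩ := Finset.exists_max_image E τ hEne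
    set s := τ (g, g') with hs
    have hcopE : CopE H (proc H G s) φ p₀ q₀ := by
      refine ⟨hφ, fun a b hab hne => ?_⟩
      have h1 : (a, b) ∈ E := by
        rw [hE, hF, SimpleGraph.deleteEdges_adj]
        exact ⟨hab, by simpa using hne⟩
      exact proc_mono H G (hmax _ h1) (hτ _ h1).1
    have hcop : Cop H (proc H G (s + 1)) φ := hcopE.cop hpq₀
    have hbr' : ¬ (H.deleteEdges {s(q, p)}).Reachable q p := by
      rw [Sym2.eq_swap]
      exact fun h => hbr h.symm
    have hp : Gd H G Y (s + 4) (φ p) := Gd.root (t := s + 1) hY hYc hpq hbr hcop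
    have hq : Gd H G Y (s + 4) (φ q) := Gd.root (t := s + 1) hY hYc hpq.symm hbr' hcop
    have hstep : ∀ m, s ≤ m → ∀ r r', F.Adj r r' → Gd H G Y m (φ r) →
        Gd H G Y (m + 2) (φ r') := by
      intro m hm r r' hrr hr
      by_contra hcon
      have h1 : (r, r') ∈ E := (hE _).2 hrr
      have h2 : (proc H G m).Adj (φ r') (φ r) :=
        (proc_mono H G ((hmax _ h1).trans hm) (hτ _ h1).1).symm
      have h3 : φ r ∈ (Finset.univ.filter fun b => NQ H G Y (φ r') b) :=
        Finset.mem_filter.2 ⟨Finset.mem_univ _, m, h2, hr, hcon⟩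
      exact Finset.disjoint_left.1 (hS r' ⟨r, hrr.symm⟩).2.2 h3 (hS r ⟨r', hrr⟩).1
    have hwalk : ∀ r r' (w : F.Walk r r') m, s ≤ m → Gd H G Y m (φ r) →
        Gd H G Y (m + 2 * w.length) (φ r') := by
      intro r r' w
      induction w with
      | nil => intro m _ h; simpa using h
      | cons hadj w ih =>
        intro m hm h
        have h1 := ih (m + 2) (by omega) (hstep m hm _ _ hadj h)
        rw [SimpleGraph.Walk.length_cons]
        exact h1.mono (by omega)
    have hfin : ∀ r, F.Reachable r g → Gd H G Y (s + 4) (φ r) → False := by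
      intro r hr hgd
      obtain ⟨w, hw⟩ := hr.exists_isPath
      have h1 := hw.length_lt
      have h2 := hwalk r g w (s + 4) (by omega) hgd
      apply (hτ _ hg).2.1
      rw [← Nat.card_eq_fintype_card] at h1
      exact h2.mono (by omega)
    rcases hreach g with h | h
    · exact hfin p h hp
    · exact hfin q h hq

/-- telescoping -/
lemma telescope (f : ℕ → ℕ) (hf : Monotone f) (n : ℕ) (hn : ∀ t, f t ≤ n) (k N : ℕ) :
    ((Finset.range N).filter fun t => f t < f (t + k)).card ≤ k * n := by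
  have h1 : ((Finset.range N).filter fun t => f t < f (t + k)).card +
      ∑ t ∈ Finset.range N, f t ≤ ∑ t ∈ Finset.range N, f (t + k) := by
    rw [Finset.card_filter, ← Finset.sum_add_distrib]
    refine Finset.sum_le_sum fun t _ => ?_
    have := hf (Nat.le_add_right t k)
    split_ifs <;> omega
  have h2 : ∑ t ∈ Finset.range (k + N), f t =
      ∑ t ∈ Finset.range k, f t + ∑ t ∈ Finset.range N, f (k + t) :=
    Finset.sum_range_add f k N
  have h3 : ∑ t ∈ Finset.range (N + k), f t =
      ∑ t ∈ Finset.range N, f t + ∑ t ∈ Finset.range k, f (N + t) :=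
    Finset.sum_range_add f N k
  have h4 : ∑ t ∈ Finset.range k, f (N + t) ≤ k * n := by
    calc _ ≤ ∑ t ∈ Finset.range k, n := Finset.sum_le_sum fun t _ => hn _
      _ = k * n := by simp
  have h5 : ∑ t ∈ Finset.range N, f (t + k) = ∑ t ∈ Finset.range N, f (k + t) :=
    Finset.sum_congr rfl fun t _ => by rw [Nat.add_comm]
  rw [Nat.add_comm k N] at h2
  omega

open scoped Classical in
/-- the number of steps after a large clique has appeared. -/
theorem phase_bridge [Fintype V] [Fintype W] {p q : W}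
    (hY : ∀ u ∈ Y, ∀ w ∈ Y, u ≠ w → G.Adj u w) (hYc : 3 * Nat.card W + 3 ≤ Y.card)
    (hpq : H.Adj p q) (hbr : ¬ (H.deleteEdges {s(p, q)}).Reachable p q)
    {p₀ q₀ : W} (hpq₀ : H.Adj p₀ q₀) (hiso : ∀ p, ∃ q, (H.deleteEdges {s(p₀, q₀)}).Adj p q)
    (hreach : ∀ g, (H.deleteEdges {s(p₀, q₀)}).Reachable p g ∨
      (H.deleteEdges {s(p₀, q₀)}).Reachable q g) :
    runTime H G ≤ 2 ^ (2 * (Nat.card W + 1) + 2) *
        extremalNumber (Fintype.card V) (H.deleteEdges {s(p₀, q₀)}) +
      Fintype.card V * (5 * Nat.card W + 11) + 1 := by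
  set c := 2 * Nat.card W + 4 with hc
  set τ := runTime H G with hτ
  have hnew : ∀ t, ∃ e : V × V, t < τ → (proc H G (t + 1)).Adj e.1 e.2 ∧
      ¬ (proc H G t).Adj e.1 e.2 := by
    intro t
    by_cases ht : t < τ
    · obtain ⟨a, b, h⟩ := exists_new (H := H) (G := G) (t := t) ht
      exact ⟨(a, b), fun _ => h⟩
    · have hne : Nonempty (V × V) := by
        by_contra hemp
        rw [not_nonempty_iff] at hemp
        have : Y.Nonempty := by
          rw [← Finset.card_pos]; omega
        obtain ⟨y, -⟩ := this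
        exact hemp.elim (y, y)
      exact ⟨hne.some, fun h => absurd h ht⟩
  choose e he using hnew
  -- injectivity
  have hinj : ∀ s < τ, ∀ t < τ, s(( e s).1, (e s).2) = s((e t).1, (e t).2) → s = t := by
    intro s hs t ht hst
    by_contra hne
    have key : ∀ s < τ, ∀ t < τ, s < t → s((e s).1, (e s).2) ≠ s((e t).1, (e t).2) := by
      intro s hs t ht hst heq
      apply (he t ht).2
      have h1 := proc_mono H G (show s + 1 ≤ t by omega) (he s hs).1
      rw [Sym2.eq_iff] at heq
      rcases heq with ⟨h2, h3⟩ | ⟨h2, h3⟩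
      · rw [← h2, ← h3]; exact h1
      · rw [← h2, ← h3]; exact h1.symm
    rcases lt_or_gt_of_ne hne with h | h
    · exact key s hs t ht h hst
    · exact key t ht s hs h hst.symm
  let SA := (Finset.range τ).filter fun t => ¬ Gd H G Y (t + 1 + c) (e t).1 ∧
    ¬ Gd H G Y (t + 1 + c) (e t).2
  let SB := (Finset.range τ).filter fun t => NQ H G Y (e t).1 (e t).2
  let SB' := (Finset.range τ).filter fun t => NQ H G Y (e t).2 (e t).1
  let SC := (Finset.range τ).filter fun t => Gd H G Y (t + 1 + c + 2) (e t).1 ∧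
    Gd H G Y (t + 1 + c + 2) (e t).2
  have hcov : Finset.range τ ⊆ SA ∪ SB ∪ SB' ∪ SC := by
    intro t ht
    have htτ := Finset.mem_range.1 ht
    simp only [Finset.mem_union, SA, SB, SB', SC, Finset.mem_filter, ht, true_and]
    have hadj : (proc H G (t + 1 + c)).Adj (e t).1 (e t).2 :=
      proc_mono H G (by omega) (he t htτ).1
    by_cases h1 : Gd H G Y (t + 1 + c) (e t).1
    · by_cases h2 : Gd H G Y (t + 1 + c + 2) (e t).2
      · right; exact ⟨h1.mono (by omega), h2⟩
      · left; right; exact ⟨_, hadj.symm, h1, h2⟩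
    · by_cases h2 : Gd H G Y (t + 1 + c) (e t).2
      · by_cases h3 : Gd H G Y (t + 1 + c + 2) (e t).1
        · right; exact ⟨h3, h2.mono (by omega)⟩
        · left; left; right; exact ⟨_, hadj, h2, h3⟩
      · left; left; left; exact ⟨h1, h2⟩
  have hSA : SA.card ≤ (outer H G Y c).edgeFinset.card := by
    refine Finset.card_le_card_of_injOn (fun t => s((e t).1, (e t).2)) ?_ ?_
    · intro t ht
      have ht' := Finset.mem_filter.1 ht
      rw [Finset.mem_coe, SimpleGraph.mem_edgeFinset, SimpleGraph.mem_edgeSet]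
      exact ⟨t + 1, (he t (Finset.mem_range.1 ht'.1)).1, ht'.2.1, ht'.2.2⟩
    · intro s hs t ht hst
      exact hinj s (Finset.mem_range.1 (Finset.mem_filter.1 hs).1) t
        (Finset.mem_range.1 (Finset.mem_filter.1 ht).1) hst
  have hpairs := card_pairs_le (fun a b : V => NQ H G Y a b) (Nat.card W + 1)
    (fun a S hS => NQ_card hY hYc hpq a S hS)
  have hSB : SB.card ≤ Fintype.card V * (Nat.card W + 1) := by
    refine le_trans (Finset.card_le_card_of_injOn (fun t => e t) ?_ ?_) hpairs
    · intro t ht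
      have ht' := Finset.mem_filter.1 ht
      rw [Finset.mem_coe, Finset.mem_filter]
      exact ⟨Finset.mem_univ _, ht'.2⟩
    · intro s hs t ht hst
      refine hinj s (Finset.mem_range.1 (Finset.mem_filter.1 hs).1) t
        (Finset.mem_range.1 (Finset.mem_filter.1 ht).1) ?_
      have : e s = e t := hst
      rw [this]
  have hSB' : SB'.card ≤ Fintype.card V * (Nat.card W + 1) := by
    refine le_trans (Finset.card_le_card_of_injOn (fun t => (e t).swap) ?_ ?_) hpairs
    · intro t ht
      have ht' := Finset.mem_filter.1 ht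
      rw [Finset.mem_coe, Finset.mem_filter]
      exact ⟨Finset.mem_univ _, ht'.2⟩
    · intro s hs t ht hst
      refine hinj s (Finset.mem_range.1 (Finset.mem_filter.1 hs).1) t
        (Finset.mem_range.1 (Finset.mem_filter.1 ht).1) ?_
      have : e s = e t := Prod.swap_injective hst
      rw [this]
  -- the sets of good vertices
  let Qs : ℕ → Finset V := fun t => Finset.univ.filter fun z => Gd H G Y t z
  have hQ : ∀ t z, z ∈ Qs t ↔ Gd H G Y t z := by simp [Qs]
  have hQm : Monotone Qs := by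
    intro s t hst z hz
    rw [hQ] at hz ⊢
    exact hz.mono hst
  have htel := telescope (fun t => (Qs t).card) (fun s t hst => Finset.card_le_card (hQm hst))
    (Fintype.card V) (fun t => Finset.card_le_univ _) (c + 4) τ
  have hSC : SC.card ≤ (c + 4) * Fintype.card V + 1 := by
    have h1 : SC ⊆ insert 0 (((Finset.range τ).filter fun t =>
        (Qs t).card < (Qs (t + (c + 4))).card).image Nat.succ) := by
      intro t ht
      have ht' := Finset.mem_filter.1 ht
      have htτ := Finset.mem_range.1 ht'.1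
      rcases Nat.eq_zero_or_pos t with h0 | h0
      · rw [h0]; exact Finset.mem_insert_self _ _
      obtain ⟨j, rfl⟩ : ∃ j, t = j + 1 := ⟨t - 1, by omega⟩
      refine Finset.mem_insert_of_mem (Finset.mem_image.2 ⟨j, ?_, rfl⟩)
      rw [Finset.mem_filter, Finset.mem_range]
      refine ⟨by omega, ?_⟩
      apply Finset.card_lt_card
      rw [Finset.ssubset_iff_of_subset (hQm (by omega))]
      have heq : j + (c + 4) = j + 1 + 1 + c + 2 := by omega
      by_cases h1 : Gd H G Y j (e (j + 1)).1
      · refine ⟨(e (j + 1)).2, ?_, ?_⟩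
        · rw [hQ, heq]; exact ht'.2.2
        · rw [hQ]
          intro h2
          exact (he (j + 1) htτ).2
            (Gd.conn hY hYc hpq h1 h2 (he (j + 1) htτ).1.ne)
      · refine ⟨(e (j + 1)).1, ?_, ?_⟩
        · rw [hQ, heq]; exact ht'.2.1
        · rw [hQ]; exact h1
    refine (Finset.card_le_card h1).trans ((Finset.card_insert_le _ _).trans ?_)
    exact Nat.add_le_add_right (Finset.card_image_le.trans htel) 1
  have hout := outer_edges (G := G) hY hYc hpq hbr hpq₀ hiso hreach
  have htot : τ ≤ SA.card + SB.card + SB'.card + SC.card := by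
    calc τ = (Finset.range τ).card := (Finset.card_range τ).symm
      _ ≤ (SA ∪ SB ∪ SB' ∪ SC).card := Finset.card_le_card hcov
      _ ≤ (SA ∪ SB ∪ SB').card + SC.card := Finset.card_union_le _ _
      _ ≤ (SA ∪ SB).card + SB'.card + SC.card := Nat.add_le_add_right (Finset.card_union_le _ _) _
      _ ≤ SA.card + SB.card + SB'.card + SC.card :=
        Nat.add_le_add_right (Nat.add_le_add_right (Finset.card_union_le _ _) _) _
  have hring : Fintype.card V * (5 * Nat.card W + 11) =
      Fintype.card V * (0 + (Nat.card W + 1)) + Fintype.card V * (Nat.card W + 1) +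
      Fintype.card V * (Nat.card W + 1) + (c + 4) * Fintype.card V := by
    rw [hc]; ring
  rw [hring]
  rw [← hc] at hout
  omega

end Pool.Agent.Helper33.Boot
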