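import Pool.Agent.Helper33.Boot.Seed
import Pool.Agent.Helper35.Boot.Turan

/-!
# Before the first seed the graph has few edges
-/

open Finset SimpleGraph
open Pool.Agent.Helper35.Boot

namespace Pool.Agent.Helper33.Boot

universe u v

variable {V : Type u} {W : Type v} {H : SimpleGraph W}

open scoped Classical in
/-- number of subsets containing `P` and disjoint from `T`. -/
lemma card_between [Fintype V] (P T : Finset V) (hPT : Disjoint P T) :
    (Finset.univ.filter fun S : Finset V => P ⊆ S ∧ Disjoint T S).card =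
      2 ^ (Fintype.card V - T.card - P.card) := by
  have h1 : (Finset.univ.filter fun S : Finset V => P ⊆ S ∧ Disjoint T S) =
      Finset.Icc P Tᶜ := by
    ext S
    simp only [Finset.mem_filter, Finset.mem_univ, true_and, Finset.mem_Icc]
    rw [Finset.subset_compl_iff_disjoint_left]
  have h2 : P ⊆ Tᶜ := Finset.subset_compl_iff_disjoint_right.2 hPT
  rw [h1, Finset.card_Icc_finset h2, Finset.card_compl]

open scoped Classical in
/-- averaging: a graph with a sparse conflict digraph `T` and such that conflict-free parts have at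
most `N` edges. -/
lemma average [Fintype V] (A : SimpleGraph V) (T : V → Finset V) (high : V → Prop) (N k : ℕ)
    (hT : ∀ w, (T w).card ≤ k)
    (hN : ∀ S : Finset V, (Finset.univ.filter fun p : V × V => A.Adj p.1 p.2 ∧
      (p.1 ∈ S ∧ high p.1 ∧ Disjoint (T p.1) S) ∧
      (p.2 ∈ S ∧ high p.2 ∧ Disjoint (T p.2) S)).card ≤ N) :
    (Finset.univ.filter fun p : V × V => A.Adj p.1 p.2 ∧ high p.1 ∧ high p.2 ∧
      p.1 ∉ T p.1 ∧ p.1 ∉ T p.2 ∧ p.2 ∉ T p.1 ∧ p.2 ∉ T p.2).card ≤ 2 ^ (2 * k + 2) * N := by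
  set n := Fintype.card V with hn
  set good := Finset.univ.filter fun p : V × V => A.Adj p.1 p.2 ∧ high p.1 ∧ high p.2 ∧
      p.1 ∉ T p.1 ∧ p.1 ∉ T p.2 ∧ p.2 ∉ T p.1 ∧ p.2 ∉ T p.2 with hgood
  have h1 : ∑ S : Finset V, (Finset.univ.filter fun p : V × V => A.Adj p.1 p.2 ∧
      (p.1 ∈ S ∧ high p.1 ∧ Disjoint (T p.1) S) ∧
      (p.2 ∈ S ∧ high p.2 ∧ Disjoint (T p.2) S)).card ≤ 2 ^ n * N := by
    calc _ ≤ ∑ S : Finset V, N := Finset.sum_le_sum fun S _ => hN S
      _ = 2 ^ n * N := by simp [hn]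
  have h2 : ∑ S : Finset V, (Finset.univ.filter fun p : V × V => A.Adj p.1 p.2 ∧
      (p.1 ∈ S ∧ high p.1 ∧ Disjoint (T p.1) S) ∧
      (p.2 ∈ S ∧ high p.2 ∧ Disjoint (T p.2) S)).card =
      ∑ p : V × V, (Finset.univ.filter fun S : Finset V => A.Adj p.1 p.2 ∧
      (p.1 ∈ S ∧ high p.1 ∧ Disjoint (T p.1) S) ∧
      (p.2 ∈ S ∧ high p.2 ∧ Disjoint (T p.2) S)).card := by
    simp only [Finset.card_filter]
    exact Finset.sum_comm
  have h3 : ∀ p ∈ good, 2 ^ n ≤ 2 ^ (2 * k + 2) * (Finset.univ.filter fun S : Finset V =>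
      A.Adj p.1 p.2 ∧ (p.1 ∈ S ∧ high p.1 ∧ Disjoint (T p.1) S) ∧
      (p.2 ∈ S ∧ high p.2 ∧ Disjoint (T p.2) S)).card := by
    intro p hp
    rw [hgood, Finset.mem_filter] at hp
    obtain ⟨-, hadj, hh1, hh2, t1, t2, t3, t4⟩ := hp
    have h4 : (Finset.univ.filter fun S : Finset V =>
        A.Adj p.1 p.2 ∧ (p.1 ∈ S ∧ high p.1 ∧ Disjoint (T p.1) S) ∧
        (p.2 ∈ S ∧ high p.2 ∧ Disjoint (T p.2) S)) =
        Finset.univ.filter fun S : Finset V => {p.1, p.2} ⊆ S ∧
          Disjoint (T p.1 ∪ T p.2) S := by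
      ext S
      simp only [Finset.mem_filter, Finset.mem_univ, true_and, Finset.insert_subset_iff,
        Finset.singleton_subset_iff, Finset.disjoint_union_left]
      tauto
    have hd : Disjoint ({p.1, p.2} : Finset V) (T p.1 ∪ T p.2) := by
      rw [Finset.disjoint_left]
      intro a ha
      simp only [Finset.mem_insert, Finset.mem_singleton] at ha
      simp only [Finset.mem_union, not_or]
      rcases ha with rfl | rfl
      · exact ⟨t1, t2⟩
      · exact ⟨t3, t4⟩
    rw [h4, card_between _ _ hd, ← pow_add]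
    apply Nat.pow_le_pow_right (by norm_num)
    have h5 : (T p.1 ∪ T p.2).card ≤ 2 * k := by
      have := Finset.card_union_le (T p.1) (T p.2)
      have := hT p.1
      have := hT p.2
      omega
    have h6 : ({p.1, p.2} : Finset V).card ≤ 2 := Finset.card_le_two
    omega
  have h4 : good.card * 2 ^ n ≤ 2 ^ (2 * k + 2) * (2 ^ n * N) := by
    calc good.card * 2 ^ n = ∑ p ∈ good, 2 ^ n := by rw [Finset.sum_const, smul_eq_mul]
      _ ≤ ∑ p ∈ good, 2 ^ (2 * k + 2) * (Finset.univ.filter fun S : Finset V =>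
          A.Adj p.1 p.2 ∧ (p.1 ∈ S ∧ high p.1 ∧ Disjoint (T p.1) S) ∧
          (p.2 ∈ S ∧ high p.2 ∧ Disjoint (T p.2) S)).card := Finset.sum_le_sum h3
      _ ≤ ∑ p : V × V, 2 ^ (2 * k + 2) * (Finset.univ.filter fun S : Finset V =>
          A.Adj p.1 p.2 ∧ (p.1 ∈ S ∧ high p.1 ∧ Disjoint (T p.1) S) ∧
          (p.2 ∈ S ∧ high p.2 ∧ Disjoint (T p.2) S)).card :=
        Finset.sum_le_sum_of_subset (Finset.subset_univ _)
      _ = 2 ^ (2 * k + 2) * ∑ p : V × V, (Finset.univ.filter fun S : Finset V =>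
          A.Adj p.1 p.2 ∧ (p.1 ∈ S ∧ high p.1 ∧ Disjoint (T p.1) S) ∧
          (p.2 ∈ S ∧ high p.2 ∧ Disjoint (T p.2) S)).card := by rw [Finset.mul_sum]
      _ ≤ 2 ^ (2 * k + 2) * (2 ^ n * N) := Nat.mul_le_mul_left _ (by rw [← h2]; exact h1)
  have h5 : 2 ^ n * good.card ≤ 2 ^ n * (2 ^ (2 * k + 2) * N) := by
    calc 2 ^ n * good.card = good.card * 2 ^ n := Nat.mul_comm _ _
      _ ≤ _ := h4
      _ = 2 ^ n * (2 ^ (2 * k + 2) * N) := by ring
  exact Nat.le_of_mul_le_mul_left h5 (by positivity)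

open scoped Classical in
lemma two_mul_edges [Fintype V] (A : SimpleGraph V) :
    2 * A.edgeFinset.card = (Finset.univ.filter fun p : V × V => A.Adj p.1 p.2).card := by
  rw [← A.sum_degrees_eq_twice_card_edges]
  simp only [Finset.card_filter, Fintype.sum_prod_type]
  refine Finset.sum_congr rfl fun v _ => ?_
  rw [← Finset.card_filter, ← SimpleGraph.card_neighborFinset_eq_degree]
  congr 1
  ext w
  simp

/-- counting pairs by their first coordinate. -/
lemma card_pairs_le [Fintype V] (P : V → V → Prop) [DecidablePred fun p : V × V => P p.1 p.2]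
    (D : ℕ) (h : ∀ (a : V) (s : Finset V), (∀ b ∈ s, P a b) → s.card ≤ D) :
    (Finset.univ.filter fun p : V × V => P p.1 p.2).card ≤ Fintype.card V * D := by
  classical
  rw [Finset.card_eq_sum_card_fiberwise (f := Prod.fst) (t := Finset.univ) (by simp)]
  calc _ ≤ ∑ a : V, D := by
        refine Finset.sum_le_sum fun a _ => ?_
        rw [← Finset.card_image_of_injOn (f := Prod.snd)]
        · apply h a
          intro b hb
          simp only [Finset.mem_image, Finset.mem_filter, Finset.mem_univ, true_and] at hb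
          obtain ⟨p, ⟨hp, rfl⟩, rfl⟩ := hb
          exact hp
        · intro p hp q hq hpq
          simp only [Finset.coe_filter, Finset.mem_filter, Finset.mem_univ, true_and,
            Set.mem_ofPred_eq] at hp hq
          exact Prod.ext (hp.2.trans hq.2.symm) hpq
    _ = Fintype.card V * D := by simp

lemma card_pairs_le' [Fintype V] (P : V → V → Prop) [DecidablePred fun p : V × V => P p.1 p.2]
    (D : ℕ) (h : ∀ (b : V) (s : Finset V), (∀ a ∈ s, P a b) → s.card ≤ D) :
    (Finset.univ.filter fun p : V × V => P p.1 p.2).card ≤ Fintype.card V * D := by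
  classical
  have h1 := card_pairs_le (fun a b => P b a) D h
  refine le_trans ?_ h1
  refine Finset.card_le_card_of_injOn Prod.swap ?_ Prod.swap_injective.injOn
  intro p hp
  simpa using hp

open scoped Classical in
/-- edges of a graph whose conflict-free parts are `F`-free. -/
lemma few_edges [Fintype V] (A : SimpleGraph V) (F : SimpleGraph W) (T : V → Finset V)
    (high : V → Prop) (k D : ℕ) (hT : ∀ w, (T w).card ≤ k) (hTw : ∀ w, w ∉ T w)
    (hlow : ∀ w, ¬ high w → (Finset.univ.filter fun u => A.Adj w u).card ≤ D)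
    (hF : ∀ (S : Finset V) (φ : W → V), Function.Injective φ →
      (∀ p q, F.Adj p q → A.Adj (φ p) (φ q)) →
      (∀ p, (∃ q, F.Adj p q) → φ p ∈ S ∧ high (φ p) ∧ Disjoint (T (φ p)) S) → False) :
    A.edgeFinset.card ≤ 2 ^ (2 * k + 2) * extremalNumber (Fintype.card V) F +
      Fintype.card V * (D + k) := by
  set ex := extremalNumber (Fintype.card V) F with hex
  have hN : ∀ S : Finset V, (Finset.univ.filter fun p : V × V => A.Adj p.1 p.2 ∧
      (p.1 ∈ S ∧ high p.1 ∧ Disjoint (T p.1) S) ∧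
      (p.2 ∈ S ∧ high p.2 ∧ Disjoint (T p.2) S)).card ≤ 2 * ex := by
    intro S
    let B : SimpleGraph V :=
      { Adj := fun a b => A.Adj a b ∧ (a ∈ S ∧ high a ∧ Disjoint (T a) S) ∧
          (b ∈ S ∧ high b ∧ Disjoint (T b) S)
        symm := ⟨fun _ _ h => ⟨h.1.symm, h.2.2, h.2.1⟩⟩
        loopless := ⟨fun _ h => A.loopless.irrefl _ h.1⟩ }
    have h1 := two_mul_edges B
    have hfree : F.Free B := by
      rintro ⟨φ⟩
      refine hF S φ φ.injective (fun p q hpq => (φ.toHom.map_adj hpq).1) ?_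
      rintro p ⟨q, hpq⟩
      exact (φ.toHom.map_adj hpq).2.1
    have h2 : ∀ i : Fintype B.edgeSet, (@SimpleGraph.edgeFinset V B i).card ≤ ex := fun i =>
      (card_edgeFinset_inst B _ _).trans_le (card_edgeFinset_le_extremalNumber hfree)
    refine le_trans (le_of_eq ?_) (h1.ge.trans (Nat.mul_le_mul_left 2 (h2 _)))
    congr 1
    ext p
    simp only [Finset.mem_filter, Finset.mem_univ, true_and]
    exact Iff.rfl
  have h1 := average A T high (2 * ex) k hT hN
  have h2 := card_pairs_le (fun a b => A.Adj a b ∧ ¬ high a) D (by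
    intro a s hs
    rcases s.eq_empty_or_nonempty with rfl | ⟨b, hb⟩
    · simp
    · refine le_trans (Finset.card_le_card ?_) (hlow a (hs b hb).2)
      intro b hb
      simp only [Finset.mem_filter, Finset.mem_univ, true_and]
      exact (hs b hb).1)
  have h3 := card_pairs_le' (fun a b => A.Adj a b ∧ ¬ high b) D (by
    intro b s hs
    rcases s.eq_empty_or_nonempty with rfl | ⟨a, ha⟩
    · simp
    · refine le_trans (Finset.card_le_card ?_) (hlow b (hs a ha).2)
      intro a ha
      simp only [Finset.mem_filter, Finset.mem_univ, true_and]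
      exact (hs a ha).1.symm)
  have h4 := card_pairs_le (fun a b : V => b ∈ T a) k
    (fun a s hs => (Finset.card_le_card hs).trans (hT a))
  have h5 := card_pairs_le' (fun a b : V => a ∈ T b) k
    (fun b s hs => (Finset.card_le_card hs).trans (hT b))
  have h6 : (Finset.univ.filter fun p : V × V => A.Adj p.1 p.2).card ≤
      (Finset.univ.filter fun p : V × V => A.Adj p.1 p.2 ∧ high p.1 ∧ high p.2 ∧
      p.1 ∉ T p.1 ∧ p.1 ∉ T p.2 ∧ p.2 ∉ T p.1 ∧ p.2 ∉ T p.2).card +
      ((Finset.univ.filter fun p : V × V => A.Adj p.1 p.2 ∧ ¬ high p.1).card +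
      (Finset.univ.filter fun p : V × V => A.Adj p.1 p.2 ∧ ¬ high p.2).card +
      (Finset.univ.filter fun p : V × V => p.2 ∈ T p.1).card +
      (Finset.univ.filter fun p : V × V => p.1 ∈ T p.2).card) := by
    refine le_trans (Finset.card_le_card (t := (Finset.univ.filter fun p : V × V =>
      A.Adj p.1 p.2 ∧ high p.1 ∧ high p.2 ∧
      p.1 ∉ T p.1 ∧ p.1 ∉ T p.2 ∧ p.2 ∉ T p.1 ∧ p.2 ∉ T p.2) ∪
      ((Finset.univ.filter fun p : V × V => A.Adj p.1 p.2 ∧ ¬ high p.1) ∪
      (Finset.univ.filter fun p : V × V => A.Adj p.1 p.2 ∧ ¬ high p.2) ∪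
      (Finset.univ.filter fun p : V × V => p.2 ∈ T p.1) ∪
      (Finset.univ.filter fun p : V × V => p.1 ∈ T p.2))) ?_) ?_
    · intro p hp
      simp only [Finset.mem_filter, Finset.mem_univ, true_and, Finset.mem_union] at hp ⊢
      have t1 := hTw p.1
      have t2 := hTw p.2
      tauto
    · refine (Finset.card_union_le _ _).trans (Nat.add_le_add_left ?_ _)
      refine (Finset.card_union_le _ _).trans (Nat.add_le_add_right ?_ _)
      refine (Finset.card_union_le _ _).trans (Nat.add_le_add_right ?_ _)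
      exact Finset.card_union_le _ _
  rw [← two_mul_edges] at h6
  have h7 : 2 ^ (2 * k + 2) * (2 * ex) = 2 * (2 ^ (2 * k + 2) * ex) := by ring
  have h8 : Fintype.card V * (D + k) = Fintype.card V * D + Fintype.card V * k := by ring
  omega

/-- Few edges before the first seed, if `H` has a vertex of degree two. -/
lemma count_two [Fintype V] [Fintype W] (A : SimpleGraph V) {x x' y : W} (hxx : x ≠ x')
    (hy : ∀ q, H.Adj y q ↔ q = x ∨ q = x') {L : ℕ} (hns : ¬ Seed (step H (step H A)) L)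
    {p₀ q₀ : W} (hpq : H.Adj p₀ q₀)
    (hiso : ∀ p, ∃ q, (H.deleteEdges {s(p₀, q₀)}).Adj p q) [Fintype A.edgeSet] :
    A.edgeFinset.card ≤ 2 ^ (2 * (L * Fintype.card W) + 2) *
      extremalNumber (Fintype.card V) (H.deleteEdges {s(p₀, q₀)}) +
      Fintype.card V * ((L + L * Fintype.card W) + L * Fintype.card W) := by
  classical
  set K := step H A with hK
  have hyx : y ≠ x := ((hy x).2 (Or.inl rfl)).ne
  let high : V → Prop := fun w =>
    L + L * Fintype.card W ≤ (Finset.univ.filter fun u => K.Adj w u).card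
  have hTex : ∀ w, ∃ T : Finset V, T.card ≤ L * Fintype.card W ∧ w ∉ T ∧
      (high w → ∀ φ : W → V, Rooted H K y x w φ → ∃ p, p ≠ y ∧ p ≠ x ∧ φ p ∈ T) := by
    intro w
    rcases hit_or_rich (H := H) (K := K) hyx L w with ⟨T, h1, h2, h3⟩ | ⟨Φ, h1, h2⟩
    · exact ⟨T, h1, h2, fun _ => h3⟩
    · refine ⟨∅, by simp, by simp, fun hw => ?_⟩
      exact absurd (seed_of_rich hxx hy Φ h1 h2 hw) hns
  choose T hTc hTw hT using hTex
  refine (card_edgeFinset_inst A _ _).trans_le (few_edges A (H.deleteEdges {s(p₀, q₀)}) T high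
    (L * Fintype.card W) (L + L * Fintype.card W) hTc hTw ?_ ?_)
  · intro w hw
    have h1 : (Finset.univ.filter fun u => A.Adj w u).card ≤
        (Finset.univ.filter fun u => K.Adj w u).card := by
      apply Finset.card_le_card
      intro u hu
      simp only [Finset.mem_filter, Finset.mem_univ, true_and] at hu ⊢
      exact le_step H A hu
    have h2 : ¬ (L + L * Fintype.card W ≤ (Finset.univ.filter fun u => K.Adj w u).card) := hw
    have h3 : (Finset.univ.filter fun u => A.Adj w u).card ≤ L + L * Fintype.card W := by omega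
    convert h3
  · intro S φ hφ hhom hS
    have hE : CopE H A φ p₀ q₀ := by
      refine ⟨hφ, fun a b hab hs => hhom a b ?_⟩
      rw [SimpleGraph.deleteEdges_adj]
      exact ⟨hab, by simpa using hs⟩
    have hC : Cop H K φ := hE.cop hpq
    have h1 := hS x (hiso x)
    obtain ⟨p, hpy, hpx, hpT⟩ := hT (φ x) h1.2.1 φ ⟨fun a b _ _ h => hC.1 h,
      fun a b _ _ hab => hC.2 a b hab, rfl⟩
    exact Finset.disjoint_left.1 h1.2.2 hpT (hS p (hiso p)).1

end Pool.Agent.Helper33.Boot
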