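import Pool.Agent.Helper33.Boot.Host

/-!
# After the seed the process stops within `O(n)` steps
-/

open Finset SimpleGraph
open Pool.Agent.Helper35.Boot

set_option linter.unusedSectionVars false

namespace Pool.Agent.Helper33.Boot

universe u v

variable {V : Type u} {W : Type v} {H : SimpleGraph W} {G : SimpleGraph V}

lemma Host.weaken {R : Bool → Bool → Prop} {K : SimpleGraph V} {X : Bool → Finset V} {m m' : ℕ}
    (h : Host R K m X) (hm : m' ≤ m) : Host R K m' X :=
  ⟨fun i => hm.trans (h.card i), h.adj⟩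

open scoped Classical in
/-- the good vertices. -/
noncomputable def Q [Fintype V] (R : Bool → Bool → Prop) (K : SimpleGraph V)
    (X : Bool → Finset V) : Finset V :=
  Finset.univ.filter fun z => ∃ i, Good R K X i z

lemma mem_Q [Fintype V] {R : Bool → Bool → Prop} {K : SimpleGraph V} {X : Bool → Finset V}
    {z : V} : z ∈ Q R K X ↔ ∃ i, Good R K X i z := by
  simp [Q]

/-- data of a host in the process started from `G`, for a graph `H` in which `y` has exactly the
neighbours `x` and `x'`. -/
structure Data [Fintype V] (H : SimpleGraph W) (G : SimpleGraph V) (R : Bool → Bool → Prop)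
    (X : Bool → Finset V) (x x' y : W) (t₀ : ℕ) : Prop where
  hR : (∀ i j, R i j) ∨ (∀ i j, R i j ↔ i ≠ j)
  hxx : x ≠ x'
  hy : ∀ q, H.Adj y q ↔ q = x ∨ q = x'
  colE : ∀ i j, R i j → ∃ c p q, H.Adj p q ∧ Colors H R c ∧ c p = i ∧ c q = j
  col : ∀ i k, R (!i) k → ∃ c, Colors H R c ∧ c y = !i ∧ c x = i ∧ c x' = k
  host : Host R (proc H G t₀) (Nat.card W + 3) X
  merge : ∀ s ≥ t₀, ∀ a b, (proc H G (s + 1)).Adj a b → ¬ (proc H G s).Adj a b →
    ∃ i, ∃ u ∈ X i, (proc H G (s + 2)).Reachable u a

section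

variable [Fintype V] [Finite W] {R : Bool → Bool → Prop} {X : Bool → Finset V} {x x' y : W}
  {t₀ : ℕ}

lemma Data.host_at (D : Data H G R X x x' y t₀) {s : ℕ} (hs : t₀ ≤ s) :
    Host R (proc H G s) (Nat.card W + 3) X :=
  D.host.mono (proc_mono H G hs)

lemma Data.absorb (D : Data H G R X x x' y t₀) {s : ℕ} (hs : t₀ ≤ s) {i : Bool} {z z' : V}
    (hz' : Good R (proc H G s) X i z') (hzz : (proc H G s).Adj z z') :
    Good R (proc H G (s + 1)) X (!i) z :=
  Pool.Agent.Helper33.Boot.absorb (D.host_at hs) D.hxx D.hy (D.col i) hz' hzz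

lemma Data.connect (D : Data H G R X x x' y t₀) {s : ℕ} (hs : t₀ ≤ s) {i j : Bool} (hij : R i j)
    {z z' : V} (hz : Good R (proc H G s) X i z) (hz' : Good R (proc H G s) X j z')
    (hne : z ≠ z') : (proc H G (s + 1)).Adj z z' := by
  obtain ⟨c, p, q, hpq, hc, hp, hq⟩ := D.colE i j hij
  exact Pool.Agent.Helper33.Boot.connect (D.host_at hs) hc hpq hp hq hz hz' hne

lemma Data.Q_mono {s t : ℕ} (hst : s ≤ t) : Q R (proc H G s) X ⊆ Q R (proc H G t) X := by
  intro z hz
  rw [mem_Q] at hz ⊢
  obtain ⟨i, hi⟩ := hz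
  exact ⟨i, hi.mono (proc_mono H G hst)⟩

lemma Data.R_not (D : Data H G R X x x' y t₀) (i : Bool) : R i (!i) := by
  rcases D.hR with h | h
  · exact h _ _
  · rw [h]
    cases i <;> simp

lemma Data.R_not' (D : Data H G R X x x' y t₀) (i : Bool) : R (!i) i := by
  rcases D.hR with h | h
  · exact h _ _
  · rw [h]
    cases i <;> simp

lemma exists_new {t : ℕ} (ht : t + 1 ≤ runTime H G) :
    ∃ a b, (proc H G (t + 1)).Adj a b ∧ ¬ (proc H G t).Adj a b := by
  have h := proc_ne_of_lt H G (t := t) (by omega)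
  by_contra hcon
  push Not at hcon
  apply h
  apply le_antisymm (proc_mono H G (Nat.le_succ t))
  intro a b hab
  exact hcon a b hab

/-- the key progress statement: a good vertex is gained within nine steps. -/
lemma Data.progress (D : Data H G R X x x' y t₀) {t : ℕ} (ht : t₀ ≤ t)
    (hrun : t + 7 ≤ runTime H G) :
    (Q R (proc H G t) X).card < (Q R (proc H G (t + 9)) X).card := by
  by_contra hcon
  rw [not_lt] at hcon
  have hQ9 : Q R (proc H G t) X = Q R (proc H G (t + 9)) X :=
    Finset.eq_of_subset_of_card_le (Data.Q_mono (by omega)) hcon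
  have hQ : ∀ s, t ≤ s → s ≤ t + 9 → Q R (proc H G s) X = Q R (proc H G t) X := by
    intro s h1 h2
    apply Finset.Subset.antisymm
    · rw [hQ9]; exact Data.Q_mono h2
    · exact Data.Q_mono h1
  set Q₀ := Q R (proc H G t) X with hQ₀
  have hclosed : ∀ s, t ≤ s → s ≤ t + 8 → ∀ z z', z' ∈ Q₀ → (proc H G s).Adj z z' → z ∈ Q₀ := by
    intro s h1 h2 z z' hz' hzz
    rw [← hQ s h1 (by omega), mem_Q] at hz'
    obtain ⟨i, hi⟩ := hz'
    rw [← hQ (s + 1) (by omega) (by omega), mem_Q]
    exact ⟨_, D.absorb (ht.trans h1) hi hzz⟩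
  have hXQ : ∀ i, ∀ u ∈ X i, u ∈ Q₀ := fun i u hu =>
    mem_Q.2 ⟨i, (D.host_at ht).good hu⟩
  have hreach : ∀ s, t ≤ s → s ≤ t + 8 → ∀ u a, u ∈ Q₀ → (proc H G s).Reachable u a →
      a ∈ Q₀ := by
    intro s h1 h2 u a hu hua
    obtain ⟨p⟩ := hua
    induction p with
    | nil => exact hu
    | cons hadj _ ih => exact ih (hclosed s h1 h2 _ _ hu hadj.symm)
  have hnew : ∀ s, t ≤ s → s ≤ t + 6 → ∀ a b, (proc H G (s + 1)).Adj a b →
      ¬ (proc H G s).Adj a b → a ∈ Q₀ := by
    intro s h1 h2 a b hab hn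
    obtain ⟨i, u, hu, hua⟩ := D.merge s (ht.trans h1) a b hab hn
    exact hreach (s + 2) (by omega) (by omega) u a (hXQ i u hu) hua
  -- the new edge at time `t + 2`
  obtain ⟨a, b, hab, hn⟩ := exists_new (H := H) (G := G) (t := t + 1) (by omega)
  have ha := hnew (t + 1) (by omega) (by omega) a b hab hn
  have hb := hnew (t + 1) (by omega) (by omega) b a hab.symm (fun h => hn h.symm)
  rw [hQ₀, mem_Q] at ha hb
  obtain ⟨i, hi⟩ := ha
  obtain ⟨j, hj⟩ := hb
  have hnR : ¬ R i j := fun hij => hn (D.connect ht hij hi hj hab.ne)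
  have hR : ∀ i j, R i j ↔ i ≠ j := by
    rcases D.hR with h | h
    · exact absurd (h i j) hnR
    · exact h
  have hij : i = j := by
    by_contra h
    exact hnR ((hR i j).2 h)
  subst hij
  -- `a` is good of both colours at time `t + 3`
  have hi' : Good R (proc H G (t + 3)) X (!i) a :=
    D.absorb (s := t + 2) (by omega) (hj.mono (proc_mono H G (by omega))) hab
  have ha2 : ∀ k, Good R (proc H G (t + 3)) X k a := by
    intro k
    by_cases hk : k = i
    · rw [hk]; exact hi.mono (proc_mono H G (by omega))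
    · have : k = !i := by
        clear * - hk
        revert hk
        cases k <;> cases i <;> decide
      rw [this]; exact hi'
  have hX2 : ∀ l, ∀ u ∈ X l, ∀ k, Good R (proc H G (t + 4)) X k u := by
    intro l u hu k
    by_cases hua : u = a
    · rw [hua]; exact (ha2 k).mono (proc_mono H G (by omega))
    · have h1 : (proc H G (t + 3)).Adj a u := ha2 (!l) l (D.R_not' l) u hu hua
      have h2 := D.absorb (s := t + 3) (by omega) (ha2 (!k)) h1.symm
      simpa using h2
  have hQ2 : ∀ z ∈ Q₀, ∀ k, Good R (proc H G (t + 5)) X k z := by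
    intro z hz k
    rw [hQ₀, mem_Q] at hz
    obtain ⟨l, hl⟩ := hz
    have hcard : 1 < (X (!l)).card := by
      have := D.host.card (!l)
      omega
    obtain ⟨u, hu, huz⟩ := Finset.exists_mem_ne hcard z
    have h1 : (proc H G (t + 4)).Adj z u :=
      proc_mono H G (by omega) (hl (!l) (D.R_not l) u hu huz)
    have h2 := D.absorb (s := t + 4) (by omega) (hX2 (!l) u hu (!k)) h1
    simpa using h2
  have hcomp : ∀ z ∈ Q₀, ∀ z' ∈ Q₀, z ≠ z' → (proc H G (t + 6)).Adj z z' := by
    intro z hz z' hz' hne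
    exact D.connect (s := t + 5) (by omega) (D.R_not true) (hQ2 z hz _) (hQ2 z' hz' _) hne
  -- the new edge at time `t + 7`
  obtain ⟨a, b, hab, hn⟩ := exists_new (H := H) (G := G) (t := t + 6) (by omega)
  have ha := hnew (t + 6) (by omega) (by omega) a b hab hn
  have hb := hnew (t + 6) (by omega) (by omega) b a hab.symm (fun h => hn h.symm)
  exact hn (hcomp a ha b hb hab.ne)

/-- after the host has appeared the process stops within `9 n + 7` steps. -/
theorem Data.runTime_le (D : Data H G R X x x' y t₀) :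
    runTime H G < t₀ + 9 * Fintype.card V + 7 := by
  by_contra hcon
  rw [not_lt] at hcon
  have key : ∀ j ≤ Fintype.card V + 1, j ≤ (Q R (proc H G (t₀ + 9 * j)) X).card := by
    intro j
    induction j with
    | zero => intro _; omega
    | succ j ih =>
      intro hj
      have h1 := ih (by omega)
      have h2 := D.progress (t := t₀ + 9 * j) (by omega) (by omega)
      have h3 : t₀ + 9 * j + 9 = t₀ + 9 * (j + 1) := by ring
      rw [h3] at h2
      omega
  have h1 := key _ le_rfl
  have h2 := Finset.card_le_univ (Q R (proc H G (t₀ + 9 * (Fintype.card V + 1))) X)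
  omega

end

/-! ### Merging -/

lemma Cop.reachable {K : SimpleGraph V} (hc : H.Connected) {φ : W → V} (h : Cop H K φ)
    (p q : W) : K.Reachable (φ p) (φ q) := by
  obtain ⟨w⟩ := hc.preconnected p q
  induction w with
  | nil => exact Reachable.refl _
  | cons hadj _ ih => exact (h.2 _ _ hadj).reachable.trans ih

/-- if `H` has a bridge then every copy of `H` is joined to the host in one step. -/
lemma bridge_merge [Fintype V] [Finite W] {K : SimpleGraph V} {R : Bool → Bool → Prop}
    {X : Bool → Finset V} (hc : H.Connected) {p q : W} (hpq : H.Adj p q)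
    (hbr : ¬ (H.deleteEdges {s(p, q)}).Reachable p q) {c : W → Bool} (hcol : Colors H R c)
    (hh : Host R K (Nat.card W + (Nat.card W + 3)) X) {φ : W → V} (hφ : Cop H K φ) (x : W) :
    ∃ i, ∃ u ∈ X i, (step H K).Reachable u (φ x) := by
  classical
  have := Fintype.ofFinite W
  rw [Nat.card_eq_fintype_card] at hh
  let P : Finset W := Finset.univ.filter fun w => (H.deleteEdges {s(p, q)}).Reachable p w
  have hP : ∀ w, w ∈ P ↔ (H.deleteEdges {s(p, q)}).Reachable p w := by simp [P]
  obtain ⟨ψ, hψ, hψP, hψX⟩ := hh.extend c P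
    ((Finset.card_le_univ P).trans (by omega)) φ (hφ.1.injOn)
  have hpP : p ∈ P := (hP p).2 (Reachable.refl _)
  have hqP : q ∉ P := fun h => hbr ((hP q).1 h)
  have hcop : CopE H K ψ p q := by
    refine ⟨hψ, fun a b hab hs => ?_⟩
    have hdel : (H.deleteEdges {s(p, q)}).Adj a b := by
      rw [SimpleGraph.deleteEdges_adj]
      exact ⟨hab, by simpa using hs⟩
    by_cases ha : a ∈ P
    · have hb : b ∈ P := (hP b).2 (((hP a).1 ha).trans hdel.reachable)
      rw [hψP a ha, hψP b hb]
      exact hφ.2 a b hab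
    · have hb : b ∉ P := fun hb => ha ((hP a).2 (((hP b).1 hb).trans hdel.symm.reachable))
      exact hh.adj (c a) (c b) (hcol a b hab) _ (hψX a ha) _ (hψX b hb)
        (fun h => hab.ne (hψ h))
  have h1 := hcop.step_adj hpq
  rw [hψP p hpP] at h1
  refine ⟨c q, ψ q, hψX q hqP, ?_⟩
  exact h1.symm.reachable.trans ((hφ.mono (le_step H K)).reachable hc p x)

/-- if `H` has no bridge then components never merge. -/
lemma reachable_of_step [Fintype V] {K : SimpleGraph V}
    (hbr : ∀ p q, H.Adj p q → (H.deleteEdges {s(p, q)}).Reachable p q) {a b : V}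
    (h : (step H K).Reachable a b) : K.Reachable a b := by
  have hadj : ∀ a b, (step H K).Adj a b → K.Reachable a b := by
    intro a b hab
    by_cases hK : K.Adj a b
    · exact hK.reachable
    obtain ⟨φ, x, y, hxy, rfl, rfl, hφ⟩ := new_edge hab hK
    obtain ⟨w⟩ := hbr x y hxy
    clear hK hab hxy
    have key : ∀ p q, (H.deleteEdges {s(x, y)}).Walk p q → K.Reachable (φ p) (φ q) := by
      intro p q w
      induction w with
      | nil => exact Reachable.refl _
      | cons hadj _ ih =>
        rw [SimpleGraph.deleteEdges_adj] at hadj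
        exact (hφ.2 _ _ hadj.1 (by simpa using hadj.2)).reachable.trans ih
    exact key x y w
  obtain ⟨w⟩ := h
  induction w with
  | nil => exact Reachable.refl _
  | cons hadj' _ ih => exact (hadj _ _ hadj').trans ih

lemma reachable_of_proc [Fintype V]
    (hbr : ∀ p q, H.Adj p q → (H.deleteEdges {s(p, q)}).Reachable p q) (t : ℕ) {a b : V}
    (h : (proc H G t).Reachable a b) : G.Reachable a b := by
  induction t with
  | zero => exact h
  | succ t ih => exact ih (reachable_of_step hbr h)

/-! ### Restriction to a union of components -/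

/-- the edges inside `C`. -/
def restr (C : Set V) (K : SimpleGraph V) : SimpleGraph V where
  Adj a b := K.Adj a b ∧ a ∈ C ∧ b ∈ C
  symm := ⟨fun _ _ h => ⟨h.1.symm, h.2.2, h.2.1⟩⟩
  loopless := ⟨fun _ h => K.loopless.irrefl _ h.1⟩

lemma restr_le (C : Set V) (K : SimpleGraph V) : restr C K ≤ K := fun _ _ h => h.1

lemma step_restr [Fintype V] {K : SimpleGraph V} {C : Set V} (hc : H.Connected)
    (h2 : ∀ x y, H.Adj x y → ∃ q, q ≠ y ∧ H.Adj x q)
    (hC : ∀ a b, (step H K).Adj a b → a ∈ C → b ∈ C) :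
    step H (restr C K) = restr C (step H K) := by
  apply le_antisymm
  · intro a b hab
    by_cases hK : (restr C K).Adj a b
    · exact ⟨le_step H K hK.1, hK.2⟩
    obtain ⟨φ, x, y, hxy, rfl, rfl, hφ⟩ := new_edge hab hK
    have h1 := (hφ.mono (restr_le C K)).step_adj hxy
    obtain ⟨q, hqy, hxq⟩ := h2 x y hxy
    have hs : s(x, q) ≠ s(x, y) := by
      intro h
      rw [Sym2.eq_iff] at h
      rcases h with ⟨-, h⟩ | ⟨h, h'⟩
      · exact hqy h
      · exact hqy (h'.trans h)
    have h3 := (hφ.2 x q hxq hs).2.1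
    exact ⟨h1, h3, hC _ _ h1 h3⟩
  · intro a b ⟨hab, ha, hb⟩
    by_cases hK : K.Adj a b
    · exact le_step H _ ⟨hK, ha, hb⟩
    obtain ⟨φ, x, y, hxy, rfl, rfl, hφ⟩ := new_edge hab hK
    have hcop := hφ.cop hxy
    have hall : ∀ p, φ p ∈ C := by
      intro p
      obtain ⟨w⟩ := hc.preconnected x p
      clear hφ hab hK hxy hb
      induction w with
      | nil => exact ha
      | cons hadj _ ih => exact ih (hC _ _ (hcop.2 _ _ hadj) ha)
    have hE : CopE H (restr C K) φ x y :=
      ⟨hφ.1, fun p q hpq hs => ⟨hφ.2 p q hpq hs, hall p, hall q⟩⟩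
    exact hE.step_adj hxy

lemma proc_restr [Fintype V] {C : Set V} (hc : H.Connected)
    (h2 : ∀ x y, H.Adj x y → ∃ q, q ≠ y ∧ H.Adj x q)
    (hC : ∀ t a b, (proc H G t).Adj a b → a ∈ C → b ∈ C) (t : ℕ) :
    proc H (restr C G) t = restr C (proc H G t) := by
  induction t with
  | zero => rfl
  | succ t ih =>
    change step H (proc H (restr C G) t) = restr C (step H (proc H G t))
    rw [ih]
    exact step_restr hc h2 (hC (t + 1))

end Pool.Agent.Helper33.Boot
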