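import Pool.Agent.Helper33.Boot.Count
import Pool.Agent.Helper33.Boot.Phase
import Pool.Agent.Helper35.Boot.Main

/-!
# The maximum running time of the `H`-process when `H` has a vertex of degree at most two
-/

open Finset SimpleGraph
open Pool.Agent.Helper35.Boot

namespace Pool.Agent.Helper33.Boot

universe u v

variable {V : Type u} {W : Type v} {H : SimpleGraph W} {G : SimpleGraph V}

open scoped Classical in
lemma le_edges [Fintype V] (s : ℕ) (hs : s ≤ runTime H G) :
    s ≤ (proc H G s).edgeFinset.card := by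
  induction s with
  | zero => omega
  | succ s ih =>
    have h1 := ih (by omega)
    have h2 := proc_ne_of_lt H G (t := s) (by omega)
    have h3 : (proc H G s).edgeFinset ⊂ (proc H G (s + 1)).edgeFinset := by
      rw [SimpleGraph.edgeFinset_ssubset_edgeFinset]
      exact lt_of_le_of_ne (proc_mono H G (Nat.le_succ s)) h2
    have h4 := Finset.card_lt_card h3
    omega

open scoped Classical in
lemma runTime_le_sq [Fintype V] : 2 * runTime H G ≤ Fintype.card V * (Fintype.card V - 1) := by
  have h1 := le_edges (H := H) (G := G) _ le_rfl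
  have h2 := (proc H G (runTime H G)).card_edgeFinset_le_card_choose_two
  rw [Nat.choose_two_right] at h2
  have h3 := Nat.div_mul_le_self (Fintype.card V * (Fintype.card V - 1)) 2
  omega

/-! ### Non-bipartite `H - e` -/

open scoped Classical in
lemma ex_of_not_bip (F : SimpleGraph W)
    (hF : ¬ ∃ c : W → Bool, ∀ a b, F.Adj a b → c a ≠ c b) (k l : ℕ) :
    k * l ≤ extremalNumber (k + l) F := by
  have hfree : F.Free (completeBipartiteGraph (Fin k) (Fin l)) := by
    rintro ⟨φ⟩
    apply hF
    refine ⟨fun w => (φ w).isLeft, fun a b hab => ?_⟩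
    have h := φ.toHom.map_adj hab
    rw [completeBipartiteGraph_adj] at h
    intro heq
    change (φ a).isLeft = true ∧ (φ b).isRight = true ∨
      (φ a).isRight = true ∧ (φ b).isLeft = true at h
    change (φ a).isLeft = (φ b).isLeft at heq
    cases ha : φ a <;> cases hb : φ b <;> rw [ha, hb] at h heq <;> simp at h heq
  have h1 : k * l ≤ (completeBipartiteGraph (Fin k) (Fin l)).edgeFinset.card := by
    have h2 : k * l = (Finset.univ : Finset (Fin k × Fin l)).card := by simp
    conv_lhs => rw [h2]
    refine Finset.card_le_card_of_injOn (fun p => s(Sum.inl p.1, Sum.inr p.2)) ?_ ?_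
    · intro p _
      simp
    · intro p _ q _ hpq
      simp only [Sym2.eq_iff] at hpq
      rcases hpq with ⟨h1, h2⟩ | ⟨h1, -⟩
      · exact Prod.ext (Sum.inl_injective h1) (Sum.inr_injective h2)
      · cases h1
  have h2 := card_edgeFinset_le_extremalNumber hfree
  rw [Fintype.card_sum, Fintype.card_fin, Fintype.card_fin] at h2
  exact h1.trans ((card_edgeFinset_inst _ _ _).trans_le h2)

lemma bound_not_bip (F : SimpleGraph W)
    (hF : ¬ ∃ c : W → Bool, ∀ a b, F.Adj a b → c a ≠ c b) [Fintype V] :
    runTime H G ≤ 2 * extremalNumber (Fintype.card V) F := by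
  set n := Fintype.card V with hn
  have h1 := ex_of_not_bip F hF (n / 2) (n - n / 2)
  have h2 : n / 2 + (n - n / 2) = n := by omega
  rw [h2] at h1
  have h3 := runTime_le_sq (H := H) (G := G)
  rw [← hn] at h3
  have h4 : n * (n - 1) ≤ 4 * (n / 2 * (n - n / 2)) := by
    rcases Nat.even_or_odd' n with ⟨m, hm | hm⟩
    · have e1 : n / 2 = m := by omega
      have e2 : n - n / 2 = m := by omega
      rw [e1, show n - m = m by omega]
      calc n * (n - 1) ≤ n * n := Nat.mul_le_mul_left _ (Nat.sub_le _ _)
        _ = 4 * (m * m) := by rw [hm]; ring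
    · have e1 : n / 2 = m := by omega
      rw [e1, show n - m = m + 1 by omega, show n - 1 = 2 * m by omega, hm]
      nlinarith
  omega

/-! ### `H` has a vertex of degree one -/

open scoped Classical in
lemma count_one [Fintype V] [Finite W] (A : SimpleGraph V) {x y : W} {p₀ q₀ : W}
    (hpq : H.Adj p₀ q₀) (hx : ∃ q, (H.deleteEdges {s(p₀, q₀)}).Adj x q) (D : Finset V)
    (hD : ∀ w, (∃ φ, Rooted H (step H A) y x w φ) → w ∈ D) :
    A.edgeFinset.card ≤ extremalNumber (Fintype.card V) (H.deleteEdges {s(p₀, q₀)}) +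
      Fintype.card V * D.card := by
  obtain ⟨B, hB⟩ : ∃ B : SimpleGraph V, ∀ a b, B.Adj a b ↔ A.Adj a b ∧ a ∉ D ∧ b ∉ D :=
    ⟨{ Adj := fun a b => A.Adj a b ∧ a ∉ D ∧ b ∉ D
       symm := ⟨fun _ _ h => ⟨h.1.symm, h.2.2, h.2.1⟩⟩
       loopless := ⟨fun _ h => A.loopless.irrefl _ h.1⟩ }, fun _ _ => Iff.rfl⟩
  have hfree : (H.deleteEdges {s(p₀, q₀)}).Free B := by
    rintro ⟨φ⟩
    obtain ⟨q, hq⟩ := hx
    have hE : CopE H A φ p₀ q₀ := by
      refine ⟨φ.injective, fun a b hab hs => ?_⟩
      have : (H.deleteEdges {s(p₀, q₀)}).Adj a b := by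
        rw [SimpleGraph.deleteEdges_adj]
        exact ⟨hab, by simpa using hs⟩
      exact ((hB _ _).1 (φ.toHom.map_adj this)).1
    have hC := hE.cop hpq
    apply ((hB _ _).1 (φ.toHom.map_adj hq)).2.1
    exact hD (φ x) ⟨φ, fun a b _ _ h => hC.1 h, fun a b _ _ hab => hC.2 a b hab, rfl⟩
  have h1 := two_mul_edges B
  have h2 : ∀ i : Fintype B.edgeSet, (@SimpleGraph.edgeFinset V B i).card ≤
      extremalNumber (Fintype.card V) (H.deleteEdges {s(p₀, q₀)}) := fun i =>
    (card_edgeFinset_inst B _ _).trans_le (card_edgeFinset_le_extremalNumber hfree)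
  have h4 := card_pairs_le (fun a b : V => b ∈ D) D.card (fun a s hs => Finset.card_le_card hs)
  have h5 := card_pairs_le' (fun a b : V => a ∈ D) D.card (fun a s hs => Finset.card_le_card hs)
  have h6 : (Finset.univ.filter fun p : V × V => A.Adj p.1 p.2).card ≤
      (Finset.univ.filter fun p : V × V => B.Adj p.1 p.2).card +
      (Finset.univ.filter fun p : V × V => p.2 ∈ D).card +
      (Finset.univ.filter fun p : V × V => p.1 ∈ D).card := by
    refine le_trans (Finset.card_le_card (t := (Finset.univ.filter fun p : V × V =>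
      B.Adj p.1 p.2) ∪ (Finset.univ.filter fun p : V × V => p.2 ∈ D) ∪
      (Finset.univ.filter fun p : V × V => p.1 ∈ D)) ?_) ?_
    · intro p hp
      simp only [Finset.mem_filter, Finset.mem_univ, true_and, Finset.mem_union] at hp ⊢
      rw [hB]
      tauto
    · refine (Finset.card_union_le _ _).trans (Nat.add_le_add_right ?_ _)
      exact Finset.card_union_le _ _
  have h7 := two_mul_edges A
  rw [← h1] at h6
  rw [← h7] at h6
  have h10 : 2 * B.edgeFinset.card ≤
      2 * extremalNumber (Fintype.card V) (H.deleteEdges {s(p₀, q₀)}) :=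
    Nat.mul_le_mul_left 2 (h2 _)
  omega

lemma seed_one [Fintype V] [Fintype W] {K : SimpleGraph V} {x y : W}
    (hy : ∀ q, H.Adj y q ↔ q = x) {L : ℕ} (D : Finset V) (hDc : L ≤ D.card)
    (hD : ∀ w ∈ D, ∃ φ, Rooted H K y x w φ) (hn : L * Fintype.card W + L ≤ Fintype.card V) :
    Seed (step H K) L := by
  classical
  obtain ⟨D', hD'D, hD'c⟩ := Finset.exists_subset_card_eq hDc
  let Φ : V → W → V := fun w => if h : w ∈ D then Classical.choose (hD w h) else fun _ => w
  have hΦ : ∀ w ∈ D, Rooted H K y x w (Φ w) := by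
    intro w hw
    simp only [Φ, dif_pos hw]
    exact Classical.choose_spec (hD w hw)
  let T : Finset V := D'.biUnion fun w => Finset.univ.image (Φ w)
  have hTc : T.card ≤ L * Fintype.card W := by
    refine (Finset.card_biUnion_le_card_mul _ _ (Fintype.card W) ?_).trans ?_
    · intro i _
      exact Finset.card_image_le.trans (Finset.card_le_univ _)
    · rw [hD'c]
  refine ⟨D', Finset.univ \ T, hD'c.ge, ?_, ?_⟩
  · have := Finset.le_card_sdiff T Finset.univ
    rw [Finset.card_univ] at this
    omega
  · intro w hw u hu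
    have huT : u ∉ T := (Finset.mem_sdiff.1 hu).2
    have hmem : ∀ p, Φ w p ∈ T := by
      intro p
      simp only [T, Finset.mem_biUnion, Finset.mem_univ, true_and, Finset.mem_image]
      exact ⟨w, hw, p, rfl⟩
    obtain ⟨hinj, hhom, hroot⟩ := hΦ w (hD'D hw)
    have hyx : H.Adj y x := (hy x).2 rfl
    have e1 : Function.update (Φ w) y u y = u := Function.update_self _ _ _
    have e2 : ∀ p, p ≠ y → Function.update (Φ w) y u p = Φ w p := fun p hp =>
      Function.update_of_ne hp _ _
    have hcop : CopE H K (Function.update (Φ w) y u) x y := by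
      refine ⟨?_, ?_⟩
      · intro a b hab
        by_cases ha : a = y <;> by_cases hb : b = y
        · rw [ha, hb]
        · rw [ha, e1, e2 b hb] at hab
          exact absurd (hab ▸ hmem b) huT
        · rw [hb, e1, e2 a ha] at hab
          exact absurd (hab ▸ hmem a) huT
        · rw [e2 a ha, e2 b hb] at hab
          exact hinj a b ha hb hab
      · intro a b hab hs
        have ha : a ≠ y := by
          rintro rfl
          rw [(hy b).1 hab] at hs
          exact hs Sym2.eq_swap
        have hb : b ≠ y := by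
          rintro rfl
          rw [(hy a).1 hab.symm] at hs
          exact hs rfl
        rw [e2 a ha, e2 b hb]
        exact hhom a b ha hb hab
    have := hcop.step_adj hyx.symm
    rwa [e1, e2 x hyx.ne.symm, hroot] at this

/-- the two kinds of hosts arising from a seed. -/
lemma host_of_seed [Fintype V] [Finite W] {L : ℕ} (hL : Nat.card W + 3 ≤ L) {p₀ q₀ : W}
    (hpq : H.Adj p₀ q₀)
    (hF : ∃ c : W → Bool, ∀ a b, (H.deleteEdges {s(p₀, q₀)}).Adj a b → c a ≠ c b) {t : ℕ}
    (h : Seed (proc H G t) L) :
    ∃ (R : Bool → Bool → Prop) (X : Bool → Finset V) (c : W → Bool),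
      ((∀ i j, R i j) ∨ (∀ i j, R i j ↔ i ≠ j)) ∧ Colors H R c ∧
      Host R (proc H G (t + 1)) L X := by
  obtain ⟨c, hc⟩ := hF
  have hc' : ∀ a b, H.Adj a b → s(a, b) ≠ s(p₀, q₀) → c a ≠ c b := by
    intro a b hab hs
    apply hc a b
    rw [SimpleGraph.deleteEdges_adj]
    exact ⟨hab, by simpa using hs⟩
  by_cases heq : c p₀ = c q₀
  · obtain ⟨X, hX⟩ := h.host_clique hL hpq hc' heq
    exact ⟨fun _ _ => True, X, c, Or.inl fun _ _ => trivial, fun _ _ _ => trivial, hX⟩
  · obtain ⟨X, hX⟩ := (h.mono (proc_mono H G (Nat.le_succ t))).host_bip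
    refine ⟨fun i j => i ≠ j, X, c, Or.inr fun _ _ => Iff.rfl, ?_, hX⟩
    intro a b hab
    by_cases hs : s(a, b) = s(p₀, q₀)
    · rw [Sym2.eq_iff] at hs
      rcases hs with ⟨rfl, rfl⟩ | ⟨rfl, rfl⟩
      · exact heq
      · exact fun h => heq h.symm
    · exact hc' a b hab hs

/-- a colouring with a prescribed colour. -/
lemma exists_color {R : Bool → Bool → Prop} (hR : (∀ i j, R i j) ∨ (∀ i j, R i j ↔ i ≠ j))
    {c : W → Bool} (hc : Colors H R c) (x : W) (i : Bool) : ∃ c, Colors H R c ∧ c x = i := by
  rcases hR with h | h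
  · exact ⟨fun _ => i, fun _ _ _ => h _ _, rfl⟩
  · by_cases hx : c x = i
    · exact ⟨c, hc, hx⟩
    · refine ⟨fun w => !(c w), ?_, ?_⟩
      · intro p q hpq
        have h1 := hc p q hpq
        rw [h] at h1 ⊢
        intro h2
        exact h1 (Bool.not_inj h2)
      · change (!(c x)) = i
        revert hx
        cases c x <;> cases i <;> decide

theorem bound_one [Fintype V] [Finite W] {x y : W} (hy : ∀ q, H.Adj y q ↔ q = x) {p₀ q₀ : W}
    (hpq : H.Adj p₀ q₀) (hx : ∃ q, (H.deleteEdges {s(p₀, q₀)}).Adj x q)
    (hF : ∃ c : W → Bool, ∀ a b, (H.deleteEdges {s(p₀, q₀)}).Adj a b → c a ≠ c b)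
    (hn : (Nat.card W + 3) * Nat.card W + (Nat.card W + 3) ≤ Fintype.card V) :
    runTime H G ≤ extremalNumber (Fintype.card V) (H.deleteEdges {s(p₀, q₀)}) +
      Fintype.card V * (Nat.card W + 3) + 6 := by
  classical
  have := Fintype.ofFinite W
  by_contra hcon
  rw [not_le] at hcon
  obtain ⟨t, ht⟩ : ∃ t, runTime H G = t + 6 := ⟨runTime H G - 6, by omega⟩
  let D : Finset V := Finset.univ.filter fun w => ∃ φ, Rooted H (proc H G (t + 1)) y x w φ
  have hD : ∀ w, w ∈ D ↔ ∃ φ, Rooted H (proc H G (t + 1)) y x w φ := by simp [D]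
  have h1 := count_one (H := H) (y := y) (proc H G t) hpq hx D (fun w hw => (hD w).2 hw)
  have h2 := le_edges (H := H) (G := G) t (by omega)
  have hDL : Nat.card W + 3 ≤ D.card := by
    by_contra hlt
    rw [not_le] at hlt
    have h3 : Fintype.card V * D.card ≤ Fintype.card V * (Nat.card W + 3) :=
      Nat.mul_le_mul_left _ hlt.le
    omega
  have hseed : Seed (proc H G (t + 2)) (Nat.card W + 3) := by
    refine seed_one (K := proc H G (t + 1)) hy D hDL (fun w hw => (hD w).1 hw) ?_
    rw [← Nat.card_eq_fintype_card (α := W)]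
    exact hn
  obtain ⟨R, X, c, hR, hc, hh⟩ := host_of_seed le_rfl hpq hF hseed
  have hdom : ∀ j, ∀ a ∈ X j, ∀ b, a ≠ b → (proc H G (t + 4)).Adj a b := by
    intro j a ha b hab
    obtain ⟨c', hc', hcx⟩ := exists_color hR hc x j
    exact dominate hh hy hc' hcx ha hab
  have hall : ∀ a b, a ≠ b → (proc H G (t + 5)).Adj a b := by
    intro a b hab
    exact dominate' (hh.mono (proc_mono H G (Nat.le_succ (t + 3)))) hy hab hdom
  apply proc_ne_of_lt H G (t := t + 5) (by omega)
  apply le_antisymm (proc_mono H G (Nat.le_succ _))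
  intro a b hab
  exact hall a b hab.ne

theorem core_two [Fintype V] [Finite W] {x x' y : W} (hxx : x ≠ x')
    (hy : ∀ q, H.Adj y q ↔ q = x ∨ q = x') {p₀ q₀ : W} (hpq : H.Adj p₀ q₀)
    (hiso : ∀ p, ∃ q, (H.deleteEdges {s(p₀, q₀)}).Adj p q)
    (hF : ∃ c : W → Bool, ∀ a b, (H.deleteEdges {s(p₀, q₀)}).Adj a b → c a ≠ c b)
    (hmerge : ∀ (R : Bool → Bool → Prop) (X : Bool → Finset V) (c : W → Bool) (t : ℕ),
      ((∀ i j, R i j) ∨ (∀ i j, R i j ↔ i ≠ j)) → Colors H R c →
      Host R (proc H G t) (Nat.card W + (Nat.card W + 3)) X →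
      ∀ s ≥ t, ∀ a b, (proc H G (s + 1)).Adj a b → ¬ (proc H G s).Adj a b →
      ∃ i, ∃ u ∈ X i, (proc H G (s + 2)).Reachable u a) :
    runTime H G ≤ 2 ^ (2 * ((2 * Nat.card W + 3) * Nat.card W) + 2) *
      extremalNumber (Fintype.card V) (H.deleteEdges {s(p₀, q₀)}) +
      Fintype.card V * ((2 * Nat.card W + 3) + 2 * ((2 * Nat.card W + 3) * Nat.card W) + 9) +
      11 := by
  classical
  have := Fintype.ofFinite W
  set L := 2 * Nat.card W + 3 with hL
  set B := 2 ^ (2 * (L * Nat.card W) + 2) *
      extremalNumber (Fintype.card V) (H.deleteEdges {s(p₀, q₀)}) +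
      Fintype.card V * (L + 2 * (L * Nat.card W)) with hB
  have hcount : ∀ t ≤ runTime H G, ¬ Seed (proc H G (t + 2)) L → t ≤ B := by
    intro t ht hns
    have h1 := count_two (H := H) (proc H G t) hxx hy (L := L) hns hpq hiso
    have h2 := le_edges (H := H) (G := G) t ht
    rw [← Nat.card_eq_fintype_card (α := W)] at h1
    have e : L + L * Nat.card W + L * Nat.card W = L + 2 * (L * Nat.card W) := by ring
    rw [e] at h1
    exact h2.trans h1
  have hfin : B + Fintype.card V * 9 + 11 = 2 ^ (2 * (L * Nat.card W) + 2) *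
      extremalNumber (Fintype.card V) (H.deleteEdges {s(p₀, q₀)}) +
      Fintype.card V * (L + 2 * (L * Nat.card W) + 9) + 11 := by
    rw [hB]; ring
  rw [← hfin]
  by_cases hs : Seed (proc H G (runTime H G)) L
  · have hex : ∃ t, Seed (proc H G t) L := ⟨_, hs⟩
    set ts := Nat.find hex with hts
    have h1 : Seed (proc H G ts) L := Nat.find_spec hex
    have h2 : ts ≤ runTime H G := Nat.find_min' hex hs
    have h3 : ts ≤ B + 3 := by
      by_contra hlt
      rw [not_le] at hlt
      have h4 := hcount (ts - 3) (by omega) (Nat.find_min hex (by omega))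
      omega
    obtain ⟨R, X, c, hR, hc, hh⟩ := host_of_seed (L := L) (by omega) hpq hF h1
    have hyx : H.Adj y x := (hy x).2 (Or.inl rfl)
    have hyx' : H.Adj y x' := (hy x').2 (Or.inr rfl)
    have D : Data H G R X x x' y (ts + 1) :=
      { hR := hR
        hxx := hxx
        hy := hy
        colE := by
          intro i j hij
          rcases hR with h | h
          · exact ⟨fun w => if w = y then i else j, y, x, hyx, fun _ _ _ => h _ _, by simp,
              by simp [hyx.ne.symm]⟩
          · obtain ⟨c', hc', hcy⟩ := exists_color (Or.inr h) hc y i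
            refine ⟨c', y, x, hyx, hc', hcy, ?_⟩
            have h4 := hc' y x hyx
            rw [h] at h4 hij
            rw [hcy] at h4
            revert h4 hij
            cases i <;> cases j <;> cases c' x <;> decide
        col := by
          intro i k hik
          rcases hR with h | h
          · exact ⟨fun w => if w = y then !i else if w = x then i else k,
              fun _ _ _ => h _ _, by simp, by simp [hyx.ne.symm], by
                simp [hyx'.ne.symm, hxx.symm]⟩
          · obtain ⟨c', hc', hcy⟩ := exists_color (Or.inr h) hc y (!i)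
            have h4 := hc' y x hyx
            have h5 := hc' y x' hyx'
            rw [h] at h4 h5 hik
            rw [hcy] at h4 h5
            refine ⟨c', hc', hcy, ?_, ?_⟩
            · revert h4
              cases i <;> cases c' x <;> decide
            · revert h5 hik
              cases i <;> cases k <;> cases c' x' <;> decide
        host := hh.weaken (by omega)
        merge := hmerge R X c (ts + 1) hR hc (hh.weaken (by omega)) }
    have h4 := D.runTime_le
    omega
  · by_cases h2 : 2 ≤ runTime H G
    · have h3 := hcount (runTime H G - 2) (by omega) (by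
        rw [show runTime H G - 2 + 2 = runTime H G by omega]
        exact hs)
      omega
    · omega

/-- the bound if `H` has a vertex of degree two and no vertex of degree one. -/
theorem bound_two [Fintype V] [Finite W] (hconn : H.Connected) {x x' y : W} (hxx : x ≠ x')
    (hy : ∀ q, H.Adj y q ↔ q = x ∨ q = x')
    (hdeg : ∀ p q, H.Adj p q → ∃ r, r ≠ q ∧ H.Adj p r) {p₀ q₀ : W} (hpq : H.Adj p₀ q₀)
    (hiso : ∀ p, ∃ q, (H.deleteEdges {s(p₀, q₀)}).Adj p q)
    (hF : ∃ c : W → Bool, ∀ a b, (H.deleteEdges {s(p₀, q₀)}).Adj a b → c a ≠ c b) :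
    runTime H G ≤ 2 ^ (2 * ((2 * Nat.card W + 3) * Nat.card W) + 2) *
      extremalNumber (Fintype.card V) (H.deleteEdges {s(p₀, q₀)}) +
      Fintype.card V * ((2 * Nat.card W + 3) + 2 * ((2 * Nat.card W + 3) * Nat.card W) + 9) +
      11 := by
  classical
  by_cases hbr : ∃ p q, H.Adj p q ∧ ¬ (H.deleteEdges {s(p, q)}).Reachable p q
  · obtain ⟨p, q, hadj, hnr⟩ := hbr
    refine core_two hxx hy hpq hiso hF ?_
    intro R X c t hR hc hh s hs a b hab hn
    obtain ⟨φ, x₁, y₁, hxy, rfl, rfl, hφ⟩ := new_edge (K := proc H G s) hab hn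
    exact bridge_merge (K := proc H G (s + 1)) hconn hadj hnr hc
      (hh.mono (proc_mono H G (by omega))) (hφ.cop hxy) x₁
  · push Not at hbr
    rcases Nat.eq_zero_or_pos (runTime H G) with h0 | h0
    · rw [h0]; exact Nat.zero_le _
    obtain ⟨a₀, b₀, hab₀, hn₀⟩ := exists_new (H := H) (G := G) (t := runTime H G - 1) (by omega)
    rw [show runTime H G - 1 + 1 = runTime H G by omega] at hab₀
    set C : Set V := {u | (proc H G (runTime H G)).Reachable a₀ u} with hCdef
    have hleτ : ∀ t, proc H G t ≤ proc H G (runTime H G) := by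
      intro t
      rcases le_total t (runTime H G) with h | h
      · exact proc_mono H G h
      · exact (proc_stable H G (runTime_spec H G) t h).le
    have hC : ∀ t a b, (proc H G t).Adj a b → a ∈ C → b ∈ C := by
      intro t a b hab ha
      exact Reachable.trans ha (hleτ t hab).reachable
    have hproc := proc_restr (G := G) (C := C) hconn hdeg hC
    have ha₀ : a₀ ∈ C := Reachable.refl _
    have hb₀ : b₀ ∈ C := hab₀.reachable
    have hrun : runTime H G ≤ runTime H (restr C G) := by
      by_contra hlt
      rw [not_le] at hlt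
      have h1 := proc_stable H (restr C G) (runTime_spec H (restr C G)) (runTime H G - 1)
        (by omega)
      have h2 := proc_stable H (restr C G) (runTime_spec H (restr C G)) (runTime H G) hlt.le
      have h3 : proc H (restr C G) (runTime H G) = proc H (restr C G) (runTime H G - 1) :=
        h2.trans h1.symm
      rw [hproc, hproc] at h3
      have h4 : (restr C (proc H G (runTime H G - 1))).Adj a₀ b₀ := by
        rw [← h3]
        exact ⟨hab₀, ha₀, hb₀⟩
      exact hn₀ h4.1
    refine hrun.trans (core_two hxx hy hpq hiso hF ?_)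
    intro R X c t hR hc hh s hs a b hab hn
    -- everything in `C` is reachable in `restr C G`
    have hCr : ∀ u ∈ C, (restr C G).Reachable a₀ u := by
      intro u hu
      have h1 : G.Reachable a₀ u := reachable_of_proc hbr _ hu
      obtain ⟨w⟩ := h1
      have key : ∀ a b, G.Walk a b → a ∈ C → (restr C G).Reachable a b := by
        intro a b w
        induction w with
        | nil => intro _; exact Reachable.refl _
        | cons hadj _ ih =>
          intro ha
          have hb := hC 0 _ _ hadj ha
          exact (Adj.reachable (G := restr C G) ⟨hadj, ha, hb⟩).trans (ih hb)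
      exact key _ _ w ha₀
    have haC : a ∈ C := by
      rw [hproc] at hab
      exact hab.2.1
    obtain ⟨u, hu⟩ : (X true).Nonempty := by
      rw [← Finset.card_pos]
      have := hh.card true
      omega
    obtain ⟨u', hu'⟩ : ((X false).erase u).Nonempty := by
      rw [← Finset.card_pos]
      have h1 := hh.card false
      have h2 := Finset.pred_card_le_card_erase (s := X false) (a := u)
      omega
    have hRtf : R true false := by
      rcases hR with h | h
      · exact h _ _
      · rw [h]; decide
    have huadj := hh.adj true false hRtf u hu u' (Finset.mem_of_mem_erase hu')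
      (Finset.ne_of_mem_erase hu').symm
    have huC : u ∈ C := by
      rw [hproc] at huadj
      exact huadj.2.1
    refine ⟨true, u, hu, ?_⟩
    have h1 : (restr C G).Reachable u a := (hCr u huC).symm.trans (hCr a haC)
    exact h1.mono (proc_mono H (restr C G) (Nat.zero_le _))

end Pool.Agent.Helper33.Boot
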