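import Pool.Agent.Helper33.Boot.Basic

/-!
# Hosts: large complete bipartite graphs or cliques inside the process
-/

open Finset SimpleGraph
open Pool.Agent.Helper35.Boot

namespace Pool.Agent.Helper33.Boot

universe u v

variable {V : Type u} {W : Type v}

/-- `c` respects the pattern `R`. -/
def Colors (H : SimpleGraph W) (R : Bool → Bool → Prop) (c : W → Bool) : Prop :=
  ∀ p q, H.Adj p q → R (c p) (c q)

/-- `X` is a host of pattern `R` and size `m` in `K`. -/
structure Host (R : Bool → Bool → Prop) (K : SimpleGraph V) (m : ℕ) (X : Bool → Finset V) :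
    Prop where
  card : ∀ i, m ≤ (X i).card
  adj : ∀ i j, R i j → ∀ u ∈ X i, ∀ w ∈ X j, u ≠ w → K.Adj u w

/-- `z` is good of colour `i` for the host `X`. -/
def Good (R : Bool → Bool → Prop) (K : SimpleGraph V) (X : Bool → Finset V) (i : Bool) (z : V) :
    Prop :=
  ∀ k, R i k → ∀ u ∈ X k, u ≠ z → K.Adj z u

variable {H : SimpleGraph W} {K : SimpleGraph V} {R : Bool → Bool → Prop} {X : Bool → Finset V}
  {m : ℕ}

lemma Host.mono {K' : SimpleGraph V} (h : Host R K m X) (hK : K ≤ K') : Host R K' m X :=
  ⟨h.card, fun i j hij u hu w hw huw => hK (h.adj i j hij u hu w hw huw)⟩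

lemma Good.mono {K' : SimpleGraph V} {i : Bool} {z : V} (h : Good R K X i z) (hK : K ≤ K') :
    Good R K' X i z :=
  fun k hk u hu huz => hK (h k hk u hu huz)

lemma Host.good (h : Host R K m X) {i : Bool} {u : V} (hu : u ∈ X i) : Good R K X i u :=
  fun k hk w hw hwu => h.adj i k hk u hu w hw hwu.symm

/-- extension of a partial injection into the host. -/
lemma Host.extend [Fintype W] [DecidableEq V] (h : Host R K (Fintype.card W + m) X)
    (c : W → Bool) (P : Finset W) (hP : P.card ≤ m) (f : W → V) (hf : Set.InjOn f P) :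
    ∃ φ : W → V, Function.Injective φ ∧ (∀ w ∈ P, φ w = f w) ∧ ∀ w ∉ P, φ w ∈ X (c w) := by
  refine exists_extend P f hf (fun w => X (c w)) fun w _ => ?_
  have h1 := h.card (c w)
  have h2 : (P.image f).card ≤ m := Finset.card_image_le.trans hP
  have h3 : (X (c w)).card - (P.image f).card ≤ (X (c w) \ P.image f).card :=
    Finset.le_card_sdiff _ _
  omega

/-- a copy of `H - pq` in which `p, q` are mapped to good vertices and the rest to the host. -/
lemma connect [Fintype V] [Finite W] (hh : Host R K (Nat.card W + 3) X) {i j : Bool}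
    {c : W → Bool} (hc : Colors H R c) {p q : W} (hpq : H.Adj p q) (hp : c p = i) (hq : c q = j)
    {z z' : V} (hz : Good R K X i z) (hz' : Good R K X j z') (hne : z ≠ z') :
    (step H K).Adj z z' := by
  classical
  have := Fintype.ofFinite W
  rw [Nat.card_eq_fintype_card] at hh
  let f : W → V := fun w => if w = p then z else z'
  have hpqne : p ≠ q := hpq.ne
  have hf : Set.InjOn f ({p, q} : Finset W) := by
    intro a ha b hb hab
    simp only [Finset.coe_insert, Finset.coe_singleton, Set.mem_insert_iff,
      Set.mem_singleton_iff] at ha hb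
    rcases ha with rfl | rfl <;> rcases hb with rfl | rfl
    · rfl
    · simp [f, hpqne.symm, hne] at hab
    · simp [f, hpqne.symm, hne.symm] at hab
    · rfl
  obtain ⟨φ, hφ, hφP, hφX⟩ := hh.extend c {p, q} (Finset.card_le_two.trans (by norm_num)) f hf
  have e1 : φ p = z := by rw [hφP p (by simp)]; simp [f]
  have e2 : φ q = z' := by rw [hφP q (by simp)]; simp [f, hpqne.symm]
  have hgood : ∀ w, Good R K X (c w) (φ w) := by
    intro w
    by_cases hw : w ∈ ({p, q} : Finset W)
    · simp only [Finset.mem_insert, Finset.mem_singleton] at hw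
      rcases hw with rfl | rfl
      · rw [e1, hp]; exact hz
      · rw [e2, hq]; exact hz'
    · exact hh.good (hφX w hw)
  have hcop : CopE H K φ p q := by
    refine ⟨hφ, fun a b hab hs => ?_⟩
    have hne' : φ a ≠ φ b := fun h => hab.ne (hφ h)
    by_cases hb : b ∈ ({p, q} : Finset W)
    · by_cases ha : a ∈ ({p, q} : Finset W)
      · exfalso
        simp only [Finset.mem_insert, Finset.mem_singleton] at ha hb
        apply hs
        rcases ha with rfl | rfl <;> rcases hb with rfl | rfl
        · exact absurd rfl hab.ne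
        · rfl
        · exact Sym2.eq_swap
        · exact absurd rfl hab.ne
      · exact (hgood b (c a) (hc b a hab.symm) (φ a) (hφX a ha) hne').symm
    · exact hgood a (c b) (hc a b hab) (φ b) (hφX b hb) hne'.symm
  have := hcop.step_adj hpq
  rwa [e1, e2] at this

/-- absorption: a neighbour of a good vertex becomes good, if `H` has a vertex `y` with exactly
the neighbours `x` and `x'`. -/
lemma absorb [Fintype V] [Finite W] (hh : Host R K (Nat.card W + 3) X) {x x' y : W}
    (hxx : x ≠ x') (hy : ∀ q, H.Adj y q ↔ q = x ∨ q = x') {i : Bool}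
    (hcol : ∀ k, R (!i) k → ∃ c, Colors H R c ∧ c y = !i ∧ c x = i ∧ c x' = k)
    {z z' : V} (hz' : Good R K X i z') (hzz : K.Adj z z') :
    Good R (step H K) X (!i) z := by
  classical
  have := Fintype.ofFinite W
  rw [Nat.card_eq_fintype_card] at hh
  intro k hk u hu huz
  by_cases huz' : u = z'
  · rw [huz']; exact le_step H K hzz
  obtain ⟨c, hc, hcy, hcx, hcx'⟩ := hcol k hk
  have hyx : y ≠ x := ((hy x).2 (Or.inl rfl)).ne
  have hyx' : y ≠ x' := ((hy x').2 (Or.inr rfl)).ne
  let f : W → V := fun w => if w = y then z else if w = x then z' else u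
  have fy : f y = z := by simp [f]
  have fx : f x = z' := by simp [f, hyx.symm]
  have fx' : f x' = u := by simp [f, hyx'.symm, hxx.symm]
  have hf : Set.InjOn f ({y, x, x'} : Finset W) := by
    intro a ha b hb hab
    simp only [Finset.coe_insert, Finset.coe_singleton, Set.mem_insert_iff,
      Set.mem_singleton_iff] at ha hb
    have hzz'ne : z ≠ z' := hzz.ne
    rcases ha with rfl | rfl | rfl <;> rcases hb with rfl | rfl | rfl <;>
      first
        | rfl
        | (exfalso; simp only [fy, fx, fx'] at hab; tauto)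
  obtain ⟨φ, hφ, hφP, hφX⟩ := hh.extend c {y, x, x'} Finset.card_le_three f hf
  have e1 : φ y = z := by rw [hφP y (by simp), fy]
  have e2 : φ x = z' := by rw [hφP x (by simp), fx]
  have e3 : φ x' = u := by rw [hφP x' (by simp), fx']
  have hX : ∀ w, w ≠ y → w ≠ x → φ w ∈ X (c w) := by
    intro w h1 h2
    by_cases h3 : w = x'
    · rw [h3, e3, hcx']; exact hu
    · exact hφX w (by simp [h1, h2, h3])
  have hgood : ∀ w, w ≠ y → Good R K X (c w) (φ w) := by
    intro w h1
    by_cases h2 : w = x
    · rw [h2, e2, hcx]; exact hz'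
    · exact hh.good (hX w h1 h2)
  have hcop : CopE H K φ y x' := by
    refine ⟨hφ, fun a b hab hs => ?_⟩
    have hne' : φ a ≠ φ b := fun h => hab.ne (hφ h)
    by_cases ha : a = y
    · rw [ha] at hab hs ⊢
      rcases (hy b).1 hab with h | h
      · rw [h, e1, e2]; exact hzz
      · rw [h] at hs; exact absurd rfl hs
    by_cases hb : b = y
    · rw [hb] at hab hs ⊢
      rcases (hy a).1 hab.symm with h | h
      · rw [h, e1, e2]; exact hzz.symm
      · rw [h] at hs; exact absurd Sym2.eq_swap hs
    by_cases hbx : b = x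
    · have hax : a ≠ x := fun h => hab.ne (h.trans hbx.symm)
      exact (hgood b hb (c a) (hc b a hab.symm) (φ a) (hX a ha hax) hne').symm
    · exact hgood a ha (c b) (hc a b hab) (φ b) (hX b hb hbx) hne'.symm
  have := hcop.step_adj ((hy x').2 (Or.inr rfl))
  rwa [e1, e3] at this

/-- if `H` has a vertex `y` of degree one, then the members of a host become adjacent to all
vertices. -/
lemma dominate [Fintype V] [Finite W] (hh : Host R K (Nat.card W + 3) X) {x y : W}
    (hy : ∀ q, H.Adj y q ↔ q = x) {i : Bool} {c : W → Bool} (hc : Colors H R c) (hcx : c x = i)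
    {u z : V} (hu : u ∈ X i) (huz : u ≠ z) : (step H K).Adj u z := by
  classical
  have := Fintype.ofFinite W
  rw [Nat.card_eq_fintype_card] at hh
  have hyx : H.Adj y x := (hy x).2 rfl
  let f : W → V := fun w => if w = x then u else z
  have hf : Set.InjOn f ({x, y} : Finset W) := by
    intro a ha b hb hab
    simp only [Finset.coe_insert, Finset.coe_singleton, Set.mem_insert_iff,
      Set.mem_singleton_iff] at ha hb
    rcases ha with rfl | rfl <;> rcases hb with rfl | rfl
    · rfl
    · simp [f, hyx.ne, huz] at hab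
    · simp [f, hyx.ne, huz.symm] at hab
    · rfl
  obtain ⟨φ, hφ, hφP, hφX⟩ := hh.extend c {x, y} (Finset.card_le_two.trans (by norm_num)) f hf
  have e1 : φ x = u := by rw [hφP x (by simp)]; simp [f]
  have e2 : φ y = z := by rw [hφP y (by simp)]; simp [f, hyx.ne]
  have hX : ∀ w, w ≠ y → φ w ∈ X (c w) := by
    intro w hw
    by_cases h : w = x
    · rw [h, e1, hcx]; exact hu
    · exact hφX w (by simp [h, hw])
  have hcop : CopE H K φ x y := by
    refine ⟨hφ, fun a b hab hs => ?_⟩
    have hne' : φ a ≠ φ b := fun h => hab.ne (hφ h)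
    have ha : a ≠ y := by
      rintro rfl
      rw [(hy b).1 hab] at hs
      exact hs Sym2.eq_swap
    have hb : b ≠ y := by
      rintro rfl
      rw [(hy a).1 hab.symm] at hs
      exact hs rfl
    exact hh.adj (c a) (c b) (hc a b hab) _ (hX a ha) _ (hX b hb) hne'
  have := hcop.step_adj hyx.symm
  rwa [e1, e2] at this

/-- if `H` has a vertex `y` of degree one, then a host whose members are adjacent to all vertices
makes the graph complete. -/
lemma dominate' [Fintype V] [Finite W] (hh : Host R K (Nat.card W + 3) X) {x y : W}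
    (hy : ∀ q, H.Adj y q ↔ q = x)
    {u z : V} (huz : u ≠ z) (hdom : ∀ j, ∀ a ∈ X j, ∀ b, a ≠ b → K.Adj a b) :
    (step H K).Adj u z := by
  classical
  have := Fintype.ofFinite W
  rw [Nat.card_eq_fintype_card] at hh
  have hyx : H.Adj y x := (hy x).2 rfl
  let f : W → V := fun w => if w = x then u else z
  have hf : Set.InjOn f ({x, y} : Finset W) := by
    intro a ha b hb hab
    simp only [Finset.coe_insert, Finset.coe_singleton, Set.mem_insert_iff,
      Set.mem_singleton_iff] at ha hb
    rcases ha with rfl | rfl <;> rcases hb with rfl | rfl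
    · rfl
    · simp [f, hyx.ne, huz] at hab
    · simp [f, hyx.ne, huz.symm] at hab
    · rfl
  obtain ⟨φ, hφ, hφP, hφX⟩ := hh.extend (fun _ => true) {x, y} (Finset.card_le_two.trans (by norm_num)) f hf
  have e1 : φ x = u := by rw [hφP x (by simp)]; simp [f]
  have e2 : φ y = z := by rw [hφP y (by simp)]; simp [f, hyx.ne]
  have hcop : CopE H K φ x y := by
    refine ⟨hφ, fun a b hab hs => ?_⟩
    have hne' : φ a ≠ φ b := fun h => hab.ne (hφ h)
    have ha : a ≠ y := by
      rintro rfl
      rw [(hy b).1 hab] at hs
      exact hs Sym2.eq_swap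
    have hb : b ≠ y := by
      rintro rfl
      rw [(hy a).1 hab.symm] at hs
      exact hs rfl
    by_cases hax : a = x
    · have hbx : b ≠ x := fun h => hab.ne (hax.trans h.symm)
      exact (hdom _ _ (hφX b (by simp [hbx, hb])) _ hne'.symm).symm
    · exact hdom _ _ (hφX a (by simp [hax, ha])) _ hne'
  have := hcop.step_adj hyx.symm
  rwa [e1, e2] at this

end Pool.Agent.Helper33.Boot
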