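import Pool.Agent.Helper33.Boot.Bridge2

/-!
# Assembly
-/

open Finset SimpleGraph
open Pool.Agent.Helper35.Boot

namespace Pool.Agent.Helper33.Boot

universe u v

variable {V : Type u} {W : Type v} {H : SimpleGraph W} {G : SimpleGraph V}

/-- the bound if `H` has a bridge and no vertex of degree one. -/
theorem bound_bridge [Fintype V] [Finite W] {p q : W} (hpq : H.Adj p q)
    (hbr : ¬ (H.deleteEdges {s(p, q)}).Reachable p q)
    {p₀ q₀ : W} (hpq₀ : H.Adj p₀ q₀) (hiso : ∀ p, ∃ q, (H.deleteEdges {s(p₀, q₀)}).Adj p q)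
    (hF : ∃ c : W → Bool, ∀ a b, (H.deleteEdges {s(p₀, q₀)}).Adj a b → c a ≠ c b)
    (hreach : ∀ g, (H.deleteEdges {s(p₀, q₀)}).Reachable p g ∨
      (H.deleteEdges {s(p₀, q₀)}).Reachable q g) :
    runTime H G ≤ (1 + 2 ^ (2 * (Nat.card W + 1) + 2)) *
        extremalNumber (Fintype.card V) (H.deleteEdges {s(p₀, q₀)}) +
      Fintype.card V * ((3 * Nat.card W + 3 + (3 * Nat.card W + 3)) * Nat.card W +
        (5 * Nat.card W + 11)) + 6 := by
  classical
  have := Fintype.ofFinite W
  set L := 3 * Nat.card W + 3 with hL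
  set ex := extremalNumber (Fintype.card V) (H.deleteEdges {s(p₀, q₀)}) with hex
  set B := ex + Fintype.card V * ((L + L) * Nat.card W) with hB
  have hring : (1 + 2 ^ (2 * (Nat.card W + 1) + 2)) * ex +
      Fintype.card V * ((L + L) * Nat.card W + (5 * Nat.card W + 11)) + 6 =
      (B + 5) + (2 ^ (2 * (Nat.card W + 1) + 2) * ex +
      Fintype.card V * (5 * Nat.card W + 11) + 1) := by
    rw [hB]; ring
  rw [hring]
  by_cases hlt : runTime H G ≤ B + 1
  · omega
  rw [not_le] at hlt
  have hseed : Seed (proc H G (B + 1 + 2)) L := by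
    rcases hit_or_disjoint (H := H) (proc H G (B + 1 + 1)) (L + L) with
      ⟨D, hDc, hD⟩ | ⟨Φ, hΦ, hΦd⟩
    · exfalso
      have h1 := count_bridge (H := H) (proc H G (B + 1)) hpq₀ hiso D hD
      have h2 := le_edges (H := H) (G := G) (B + 1) hlt.le
      have h3 : Fintype.card V * D.card ≤ Fintype.card V * ((L + L) * Nat.card W) := by
        apply Nat.mul_le_mul_left
        rw [Nat.card_eq_fintype_card]
        exact hDc
      omega
    · exact seed_bridge (K := proc H G (B + 1 + 1)) hpq hbr Φ hΦ hΦd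
  obtain ⟨R, X, c, hR, hc, hh⟩ := host_of_seed (L := L) (by omega) hpq₀ hF hseed
  have hcl := clique_of_host hpq hbr (fun x i => exists_color hR hc x i)
    (hh.weaken (m' := Nat.card W + 3) (by omega))
  have hph := phase_bridge (G := proc H G (B + 1 + 2 + 1 + 1)) (Y := X true) hcl (hh.card true)
    hpq hbr hpq₀ hiso hreach
  have hadd := runTime_le_add (H := H) (G := G) (B + 1 + 2 + 1 + 1)
  rw [← hex] at hph
  omega

lemma connected_of_reachable (hconn : H.Connected) {p q : W}
    (h : (H.deleteEdges {s(p, q)}).Reachable p q) : (H.deleteEdges {s(p, q)}).Connected := by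
  have := hconn.nonempty
  refine ⟨fun a b => ?_⟩
  obtain ⟨w⟩ := hconn.preconnected a b
  induction w with
  | nil => exact Reachable.refl _
  | cons hadj _ ih =>
    refine Reachable.trans ?_ ih
    rename_i a b c _
    by_cases hs : s(a, b) = s(p, q)
    · rw [Sym2.eq_iff] at hs
      rcases hs with ⟨rfl, rfl⟩ | ⟨rfl, rfl⟩
      · exact h
      · exact h.symm
    · refine Adj.reachable ?_
      rw [SimpleGraph.deleteEdges_adj]
      exact ⟨hadj, by simpa using hs⟩

lemma reach_either (hconn : H.Connected) (p q g : W) :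
    (H.deleteEdges {s(p, q)}).Reachable p g ∨ (H.deleteEdges {s(p, q)}).Reachable q g := by
  have key : ∀ a b, H.Walk a b → ((H.deleteEdges {s(p, q)}).Reachable p a ∨
      (H.deleteEdges {s(p, q)}).Reachable q a) → ((H.deleteEdges {s(p, q)}).Reachable p b ∨
      (H.deleteEdges {s(p, q)}).Reachable q b) := by
    intro a b w
    induction w with
    | nil => exact id
    | cons hadj _ ih =>
      intro h
      apply ih
      rename_i a b c _
      by_cases hs : s(a, b) = s(p, q)
      · rw [Sym2.eq_iff] at hs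
        rcases hs with ⟨rfl, rfl⟩ | ⟨rfl, rfl⟩
        · exact Or.inr (Reachable.refl _)
        · exact Or.inl (Reachable.refl _)
      · have hadj' : (H.deleteEdges {s(p, q)}).Adj a b := by
          rw [SimpleGraph.deleteEdges_adj]
          exact ⟨hadj, by simpa using hs⟩
        rcases h with h | h
        · exact Or.inl (h.trans hadj'.reachable)
        · exact Or.inr (h.trans hadj'.reachable)
  obtain ⟨w⟩ := hconn.preconnected p g
  exact key p g w (Or.inl (Reachable.refl _))

/-- a connected graph with at least two edges: the neighbour of a vertex of degree one has another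
neighbour. -/
lemma exists_other (hconn : H.Connected) (hH : 3 ≤ H.edgeSet.ncard) {x y : W}
    (hy : ∀ q, H.Adj y q ↔ q = x) : ∃ q, q ≠ y ∧ H.Adj x q := by
  by_contra hcon
  push Not at hcon
  have hx : ∀ q, H.Adj x q → q = y := by
    intro q hq
    by_contra h
    exact hcon q h hq
  have hall : ∀ w, w = x ∨ w = y := by
    intro w
    obtain ⟨p⟩ := hconn.preconnected x w
    have key : ∀ a b, H.Walk a b → (a = x ∨ a = y) → (b = x ∨ b = y) := by
      intro a b p
      induction p with
      | nil => exact id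
      | cons hadj _ ih =>
        intro h
        apply ih
        rcases h with rfl | rfl
        · exact Or.inr (hx _ hadj)
        · exact Or.inl ((hy _).1 hadj)
    exact key x w p (Or.inl rfl)
  have hsub : H.edgeSet ⊆ {s(x, y)} := by
    intro e
    induction e using Sym2.ind with
    | _ a b =>
      intro hab
      rw [SimpleGraph.mem_edgeSet] at hab
      rw [Set.mem_singleton_iff]
      rcases hall a with rfl | rfl <;> rcases hall b with rfl | rfl
      · exact absurd rfl hab.ne
      · rfl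
      · exact Sym2.eq_swap
      · exact absurd rfl hab.ne
  have h1 := Set.ncard_le_ncard hsub (Set.finite_singleton _)
  rw [Set.ncard_singleton] at h1
  omega

/-- the uniform bound on `n` vertices. -/
theorem uniform_bound [Finite W] (H : SimpleGraph W) (hconn : H.Connected)
    (hH : 3 ≤ H.edgeSet.ncard)
    (hcut : (∃ y, (H.neighborSet y).ncard ≤ 2) ∨ ∃ f : Sym2 W, ¬ (H.deleteEdges {f}).Connected) :
    ∃ K : ℕ, ∀ e ∈ H.edgeSet, ∀ n : ℕ, 2 ≤ n → ∀ G : SimpleGraph (Fin n),
      runTime H G ≤ K * extremalNumber n (H.deleteEdges {e}) := by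
  classical
  set v := Nat.card W with hv
  obtain ⟨P₁, hP₁⟩ : ∃ P, P = 2 ^ (2 * ((2 * v + 3) * v) + 2) := ⟨_, rfl⟩
  obtain ⟨P₂, hP₂⟩ : ∃ P, P = 2 ^ (2 * (v + 1) + 2) := ⟨_, rfl⟩
  -- a common constant
  refine ⟨2 + (1 + 3 * (v + 6)) + 3 * ((v + 3) * v + (v + 3)) +
    (P₁ + 3 * ((2 * v + 3) + 2 * ((2 * v + 3) * v) + 9 + 6)) +
    ((1 + P₂) + 3 * ((3 * v + 3 + (3 * v + 3)) * v + (5 * v + 11) + 3)), ?_⟩
  intro e he n hn G
  set ex := extremalNumber n (H.deleteEdges {e}) with hex
  have hlin : n ≤ 3 * ex := le_three_ex (two_edges hH e he) hn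
  induction e using Sym2.ind with
  | _ p₀ q₀ =>
  rw [SimpleGraph.mem_edgeSet] at he
  have hcV : Fintype.card (Fin n) = n := Fintype.card_fin n
  by_cases hF : ∃ c : W → Bool, ∀ a b, (H.deleteEdges {s(p₀, q₀)}).Adj a b → c a ≠ c b
  swap
  · have h1 := bound_not_bip (H := H) (G := G) _ hF
    rw [hcV, ← hex] at h1
    refine h1.trans (Nat.mul_le_mul_right _ ?_)
    omega
  have hmul : ∀ c₁ c₂ r : ℕ, r ≤ c₁ * ex + n * c₂ → r ≤ (c₁ + 3 * c₂) * ex := by
    intro c₁ c₂ r hr
    calc r ≤ c₁ * ex + n * c₂ := hr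
      _ ≤ c₁ * ex + 3 * ex * c₂ := Nat.add_le_add_left (Nat.mul_le_mul_right _ hlin) _
      _ = (c₁ + 3 * c₂) * ex := by ring
  have hle : ∀ a b r : ℕ, a ≤ b → r ≤ a * ex → r ≤ b * ex := fun a b r hab hr =>
    hr.trans (Nat.mul_le_mul_right _ hab)
  by_cases hone : ∃ y x, ∀ q, H.Adj y q ↔ q = x
  · obtain ⟨y, x, hy⟩ := hone
    have hyx : H.Adj y x := (hy x).2 rfl
    have hx : ∃ q, (H.deleteEdges {s(p₀, q₀)}).Adj x q := by
      obtain ⟨q, hqy, hxq⟩ := exists_other hconn hH hy
      by_cases hs : s(x, y) = s(p₀, q₀)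
      · refine ⟨q, ?_⟩
        rw [SimpleGraph.deleteEdges_adj]
        refine ⟨hxq, ?_⟩
        rw [Set.mem_singleton_iff, ← hs]
        intro h
        rw [Sym2.eq_iff] at h
        rcases h with ⟨-, h⟩ | ⟨h, h'⟩
        · exact hqy h
        · exact hqy (h'.trans h)
      · refine ⟨y, ?_⟩
        rw [SimpleGraph.deleteEdges_adj]
        exact ⟨hyx.symm, by simpa using hs⟩
    by_cases hnl : (v + 3) * v + (v + 3) ≤ n
    · have h1 := bound_one (H := H) (G := G) hy he hx hF (by rw [hcV]; exact hnl)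
      rw [hcV, ← hex, ← hv] at h1
      refine hle (1 + 3 * (v + 6)) _ _ (by omega) (hmul 1 (v + 6) _ ?_)
      have : n * (v + 6) = n * (v + 3) + 3 * n := by ring
      omega
    · have h1 := runTime_le_sq (H := H) (G := G)
      rw [hcV] at h1
      refine hle (0 + 3 * ((v + 3) * v + (v + 3))) _ _ (by omega)
        (hmul 0 ((v + 3) * v + (v + 3)) _ ?_)
      have h2 : n * (n - 1) ≤ n * ((v + 3) * v + (v + 3)) :=
        Nat.mul_le_mul_left _ (by omega)
      omega
  -- all degrees are at least two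
  have hdeg : ∀ p q, H.Adj p q → ∃ r, r ≠ q ∧ H.Adj p r := by
    intro p q hpq
    by_contra hcon
    push Not at hcon
    apply hone
    refine ⟨p, q, fun r => ⟨fun h => ?_, fun h => h ▸ hpq⟩⟩
    by_contra hne
    exact hcon r hne h
  have hnb : ∀ p, ∃ q, H.Adj p q := by
    intro p
    by_cases hpp : p = p₀
    · exact ⟨q₀, hpp ▸ he⟩
    · obtain ⟨w⟩ := hconn.preconnected p p₀
      cases w with
      | nil => exact absurd rfl hpp
      | cons h _ => exact ⟨_, h⟩
  have hiso : ∀ p, ∃ q, (H.deleteEdges {s(p₀, q₀)}).Adj p q := by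
    intro p
    obtain ⟨q, hpq⟩ := hnb p
    obtain ⟨r, hrq, hpr⟩ := hdeg p q hpq
    by_cases hs : s(p, q) = s(p₀, q₀)
    · refine ⟨r, ?_⟩
      rw [SimpleGraph.deleteEdges_adj]
      refine ⟨hpr, ?_⟩
      rw [Set.mem_singleton_iff, ← hs]
      intro h
      rw [Sym2.eq_iff] at h
      rcases h with ⟨-, h⟩ | ⟨h, h'⟩
      · exact hrq h
      · exact hrq (h'.trans h)
    · refine ⟨q, ?_⟩
      rw [SimpleGraph.deleteEdges_adj]
      exact ⟨hpq, by simpa using hs⟩
  rcases hcut with ⟨y, hy⟩ | ⟨f, hf⟩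
  · obtain ⟨x, hyx⟩ := hnb y
    obtain ⟨x', hxx, hyx'⟩ := hdeg y x hyx
    have hset : H.neighborSet y = {x, x'} := by
      symm
      apply Set.eq_of_subset_of_ncard_le
      · intro z hz
        rcases hz with rfl | hz
        · exact hyx
        · rw [Set.mem_singleton_iff] at hz
          rw [hz]; exact hyx'
      · rw [Set.ncard_pair hxx.symm]; exact hy
      · exact Set.toFinite _
    have hy2 : ∀ q, H.Adj y q ↔ q = x ∨ q = x' := by
      intro q
      rw [← SimpleGraph.mem_neighborSet, hset]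
      rfl
    have h1 := bound_two (G := G) hconn hxx.symm hy2 hdeg he hiso hF
    rw [hcV, ← hex, ← hv, ← hP₁] at h1
    refine hle (P₁ +
      3 * ((2 * v + 3) + 2 * ((2 * v + 3) * v) + 9 + 6)) _ _ (by omega)
      (hmul _ ((2 * v + 3) + 2 * ((2 * v + 3) * v) + 9 + 6) _ ?_)
    have : n * ((2 * v + 3) + 2 * ((2 * v + 3) * v) + 9 + 6) =
      n * ((2 * v + 3) + 2 * ((2 * v + 3) * v) + 9) + 6 * n := by ring
    omega
  · induction f using Sym2.ind with
    | _ p q =>
    have hnr : ¬ (H.deleteEdges {s(p, q)}).Reachable p q := fun h =>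
      hf (connected_of_reachable hconn h)
    have hpq : H.Adj p q := by
      by_contra hna
      apply hf
      have : H.deleteEdges {s(p, q)} = H := by
        ext a b
        rw [SimpleGraph.deleteEdges_adj]
        refine ⟨fun h => h.1, fun h => ⟨h, ?_⟩⟩
        rw [Set.mem_singleton_iff]
        intro hs
        apply hna
        rw [← SimpleGraph.mem_edgeSet, ← hs]
        exact h
      rw [this]
      exact hconn
    have h1 : runTime H G ≤ (1 + P₂) * ex +
        n * ((3 * v + 3 + (3 * v + 3)) * v + (5 * v + 11)) + 6 := by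
      by_cases hr : (H.deleteEdges {s(p₀, q₀)}).Reachable p₀ q₀
      · have h2 := bound_bridge (G := G) hpq hnr he hiso hF
          (fun g => Or.inl ((connected_of_reachable hconn hr).preconnected p g))
        rw [hcV, ← hex, ← hv, ← hP₂] at h2
        exact h2
      · have h2 := bound_bridge (G := G) he hr he hiso hF
          (fun g => reach_either hconn p₀ q₀ g)
        rw [hcV, ← hex, ← hv, ← hP₂] at h2
        exact h2
    refine hle ((1 + P₂) +
      3 * ((3 * v + 3 + (3 * v + 3)) * v + (5 * v + 11) + 3)) _ _ (by omega)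
      (hmul _ ((3 * v + 3 + (3 * v + 3)) * v + (5 * v + 11) + 3) _ ?_)
    have : n * ((3 * v + 3 + (3 * v + 3)) * v + (5 * v + 11) + 3) =
      n * ((3 * v + 3 + (3 * v + 3)) * v + (5 * v + 11)) + 3 * n := by ring
    omega

end Pool.Agent.Helper33.Boot
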