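import Pool.Agent.Helper33.Boot.Host

/-!
# Seeds: before the first `K_{L,L}` the graph has few edges
-/

open Finset SimpleGraph
open Pool.Agent.Helper35.Boot

namespace Pool.Agent.Helper33.Boot

universe u v

variable {V : Type u} {W : Type v} {H : SimpleGraph W} {K : SimpleGraph V}

/-- `K` contains a complete bipartite graph with parts of size at least `L`. -/
def Seed (K : SimpleGraph V) (L : ℕ) : Prop :=
  ∃ A B : Finset V, L ≤ A.card ∧ L ≤ B.card ∧ ∀ a ∈ A, ∀ b ∈ B, K.Adj a b

lemma Seed.mono {K' : SimpleGraph V} {L : ℕ} (h : Seed K L) (hK : K ≤ K') : Seed K' L := by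
  obtain ⟨A, B, hA, hB, hAB⟩ := h
  exact ⟨A, B, hA, hB, fun a ha b hb => hK (hAB a ha b hb)⟩

lemma Seed.host_bip {L : ℕ} (h : Seed K L) : ∃ X, Host (fun i j => i ≠ j) K L X := by
  obtain ⟨A, B, hA, hB, hAB⟩ := h
  refine ⟨fun i => if i then B else A, ?_, ?_⟩
  · intro i
    cases i
    · simpa using hA
    · simpa using hB
  · intro i j hij u hu w hw _
    cases i <;> cases j
    · exact absurd rfl hij
    · exact hAB u (by simpa using hu) w (by simpa using hw)
    · exact (hAB w (by simpa using hw) u (by simpa using hu)).symm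
    · exact absurd rfl hij

lemma Seed.host_clique [Fintype V] [Finite W] {L : ℕ} (hL : Nat.card W + 3 ≤ L)
    (h : Seed K L) {p₀ q₀ : W}
    (hpq : H.Adj p₀ q₀) {c : W → Bool}
    (hc : ∀ a b, H.Adj a b → s(a, b) ≠ s(p₀, q₀) → c a ≠ c b) (heq : c p₀ = c q₀) :
    ∃ X, Host (fun _ _ => True) (step H K) L X := by
  classical
  have := Fintype.ofFinite W
  rw [Nat.card_eq_fintype_card] at hL
  obtain ⟨A, B, hA, hB, hAB⟩ := h
  refine ⟨fun _ => A, fun _ => hA, ?_⟩
  intro _ _ _ u hu w hw huw
  let f : W → V := fun p => if p = p₀ then u else w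
  have hf : Set.InjOn f ({p₀, q₀} : Finset W) := by
    intro a ha b hb hab
    simp only [Finset.coe_insert, Finset.coe_singleton, Set.mem_insert_iff,
      Set.mem_singleton_iff] at ha hb
    rcases ha with rfl | rfl <;> rcases hb with rfl | rfl
    · rfl
    · simp [f, hpq.ne.symm, huw] at hab
    · simp [f, hpq.ne.symm, huw.symm] at hab
    · rfl
  obtain ⟨φ, hφ, hφP, hφX⟩ := exists_extend {p₀, q₀} f hf
    (fun p => if c p = c p₀ then A else B) (by
      intro p _
      have h2 : (({p₀, q₀} : Finset W).image f).card ≤ 2 :=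
        Finset.card_image_le.trans Finset.card_le_two
      have h3 : (if c p = c p₀ then A else B).card - (({p₀, q₀} : Finset W).image f).card ≤
        ((if c p = c p₀ then A else B) \ ({p₀, q₀} : Finset W).image f).card :=
        Finset.le_card_sdiff _ _
      have h4 : Fintype.card W + 3 ≤ (if c p = c p₀ then A else B).card := by
        split_ifs
        · exact hL.trans hA
        · exact hL.trans hB
      omega)
  have e1 : φ p₀ = u := by rw [hφP p₀ (by simp)]; simp [f]
  have e2 : φ q₀ = w := by rw [hφP q₀ (by simp)]; simp [f, hpq.ne.symm]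
  have hin : ∀ p, φ p ∈ (if c p = c p₀ then A else B) := by
    intro p
    by_cases hp : p ∈ ({p₀, q₀} : Finset W)
    · simp only [Finset.mem_insert, Finset.mem_singleton] at hp
      rcases hp with rfl | rfl
      · rw [if_pos rfl, e1]; exact hu
      · rw [if_pos heq.symm, e2]; exact hw
    · exact hφX p hp
  have hcop : CopE H K φ p₀ q₀ := by
    refine ⟨hφ, fun a b hab hs => ?_⟩
    have h1 := hc a b hab hs
    have ha := hin a
    have hb := hin b
    by_cases h2 : c a = c p₀
    · have h3 : c b ≠ c p₀ := fun h => h1 (h2.trans h.symm)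
      rw [if_pos h2] at ha
      rw [if_neg h3] at hb
      exact hAB _ ha _ hb
    · have h3 : c b = c p₀ := by
        revert h1 h2
        cases c a <;> cases c b <;> cases c p₀ <;> simp
      rw [if_neg h2] at ha
      rw [if_pos h3] at hb
      exact (hAB _ hb _ ha).symm
  have := hcop.step_adj hpq
  rwa [e1, e2] at this

/-- `φ` is a copy of `H - y` in `K` taking `x` to `w`. -/
def Rooted (H : SimpleGraph W) (K : SimpleGraph V) (y x : W) (w : V) (φ : W → V) : Prop :=
  (∀ p q, p ≠ y → q ≠ y → φ p = φ q → p = q) ∧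
    (∀ p q, p ≠ y → q ≠ y → H.Adj p q → K.Adj (φ p) (φ q)) ∧ φ x = w

lemma hit_or_rich [Fintype W] [DecidableEq V] {y x : W} (hyx : y ≠ x) (L : ℕ) (w : V) :
    (∃ T : Finset V, T.card ≤ L * Fintype.card W ∧ w ∉ T ∧
      ∀ φ : W → V, Rooted H K y x w φ → ∃ p, p ≠ y ∧ p ≠ x ∧ φ p ∈ T) ∨
    (∃ Φ : Fin L → W → V, (∀ i, Rooted H K y x w (Φ i)) ∧
      ∀ i j, i ≠ j → ∀ p q, p ≠ y → p ≠ x → q ≠ y → q ≠ x → Φ i p ≠ Φ j q) := by
  classical
  by_cases hT : ∃ T : Finset V, T.card ≤ L * Fintype.card W ∧ w ∉ T ∧
      ∀ φ : W → V, Rooted H K y x w φ → ∃ p, p ≠ y ∧ p ≠ x ∧ φ p ∈ T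
  · exact Or.inl hT
  right
  push Not at hT
  have key : ∀ k ≤ L, ∃ Φ : Fin k → W → V, (∀ i, Rooted H K y x w (Φ i)) ∧
      ∀ i j, i ≠ j → ∀ p q, p ≠ y → p ≠ x → q ≠ y → q ≠ x → Φ i p ≠ Φ j q := by
    intro k
    induction k with
    | zero =>
      intro _
      exact ⟨fun i => i.elim0, fun i => i.elim0, fun i => i.elim0⟩
    | succ k ih =>
      intro hk
      obtain ⟨Φ, hΦ, hΦd⟩ := ih (by omega)
      let T : Finset V := Finset.univ.biUnion fun i : Fin k =>
        (Finset.univ.filter fun p : W => p ≠ y ∧ p ≠ x).image (Φ i)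
      have hmem : ∀ i p, p ≠ y → p ≠ x → Φ i p ∈ T := by
        intro i p h1 h2
        simp only [T, Finset.mem_biUnion, Finset.mem_univ, true_and, Finset.mem_image,
          Finset.mem_filter]
        exact ⟨i, p, ⟨h1, h2⟩, rfl⟩
      have hTc : T.card ≤ L * Fintype.card W := by
        refine (Finset.card_biUnion_le_card_mul _ _ (Fintype.card W) ?_).trans ?_
        · intro i _
          exact Finset.card_image_le.trans (Finset.card_le_univ _)
        · rw [Finset.card_univ, Fintype.card_fin]
          exact Nat.mul_le_mul_right _ (by omega)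
      have hwT : w ∉ T := by
        intro hw
        simp only [T, Finset.mem_biUnion, Finset.mem_univ, true_and, Finset.mem_image,
          Finset.mem_filter] at hw
        obtain ⟨i, p, ⟨h1, h2⟩, h3⟩ := hw
        obtain ⟨h4, -, h5⟩ := hΦ i
        exact h2 (h4 p x h1 hyx.symm (h3.trans h5.symm))
      obtain ⟨φ, hφ, hφT⟩ := hT T hTc hwT
      refine ⟨Fin.cons φ Φ, ?_, ?_⟩
      · intro i
        refine Fin.cases ?_ (fun i => ?_) i
        · simpa using hφ
        · simpa using hΦ i
      · intro i j
        refine Fin.cases ?_ (fun i => ?_) i <;> refine Fin.cases ?_ (fun j => ?_) j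
        · intro h; exact absurd rfl h
        · intro _ p q h1 h2 h3 h4
          simp only [Fin.cons_zero, Fin.cons_succ]
          intro h
          exact hφT p h1 h2 (h ▸ hmem j q h3 h4)
        · intro _ p q h1 h2 h3 h4
          simp only [Fin.cons_zero, Fin.cons_succ]
          intro h
          exact hφT q h3 h4 (h ▸ hmem i p h1 h2)
        · intro hij p q h1 h2 h3 h4
          simp only [Fin.cons_succ]
          exact hΦd i j (fun h => hij (by rw [h])) p q h1 h2 h3 h4
  exact key L le_rfl

open scoped Classical in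
lemma seed_of_rich [Fintype V] [Fintype W] {x x' y : W} (hxx : x ≠ x')
    (hy : ∀ q, H.Adj y q ↔ q = x ∨ q = x') {L : ℕ} {w : V} (Φ : Fin L → W → V)
    (hΦ : ∀ i, Rooted H K y x w (Φ i))
    (hΦd : ∀ i j, i ≠ j → ∀ p q, p ≠ y → p ≠ x → q ≠ y → q ≠ x → Φ i p ≠ Φ j q)
    (hdeg : L + L * Fintype.card W ≤ (Finset.univ.filter fun u => K.Adj w u).card) :
    Seed (step H K) L := by
  have hyx : y ≠ x := ((hy x).2 (Or.inl rfl)).ne
  have hyx' : y ≠ x' := ((hy x').2 (Or.inr rfl)).ne
  let T : Finset V := Finset.univ.biUnion fun i : Fin L => Finset.univ.image (Φ i)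
  have hmem : ∀ i p, Φ i p ∈ T := by
    intro i p
    simp only [T, Finset.mem_biUnion, Finset.mem_univ, true_and, Finset.mem_image]
    exact ⟨i, p, rfl⟩
  have hTc : T.card ≤ L * Fintype.card W := by
    refine (Finset.card_biUnion_le_card_mul _ _ (Fintype.card W) ?_).trans ?_
    · intro i _
      exact Finset.card_image_le.trans (Finset.card_le_univ _)
    · rw [Finset.card_univ, Fintype.card_fin]
  refine ⟨Finset.univ.image fun i => Φ i x', (Finset.univ.filter fun u => K.Adj w u) \ T,
    ?_, ?_, ?_⟩
  · rw [Finset.card_image_of_injective, Finset.card_univ, Fintype.card_fin]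
    intro i j hij
    by_contra hne
    exact hΦd i j hne x' x' hyx'.symm hxx.symm hyx'.symm hxx.symm hij
  · have := Finset.le_card_sdiff T (Finset.univ.filter fun u => K.Adj w u)
    omega
  · intro a ha u hu
    simp only [Finset.mem_image, Finset.mem_univ, true_and] at ha
    obtain ⟨i, rfl⟩ := ha
    simp only [Finset.mem_sdiff, Finset.mem_filter, Finset.mem_univ, true_and] at hu
    obtain ⟨hwu, huT⟩ := hu
    obtain ⟨hinj, hhom, hroot⟩ := hΦ i
    have e1 : Function.update (Φ i) y u y = u := Function.update_self _ _ _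
    have e2 : ∀ p, p ≠ y → Function.update (Φ i) y u p = Φ i p := fun p hp =>
      Function.update_of_ne hp _ _
    have hcop : CopE H K (Function.update (Φ i) y u) y x' := by
      refine ⟨?_, ?_⟩
      · intro a b hab
        by_cases ha : a = y <;> by_cases hb : b = y
        · rw [ha, hb]
        · rw [ha, e1, e2 b hb] at hab
          exact absurd (hab ▸ hmem i b) huT
        · rw [hb, e1, e2 a ha] at hab
          exact absurd (hab ▸ hmem i a) huT
        · rw [e2 a ha, e2 b hb] at hab
          exact hinj a b ha hb hab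
      · intro a b hab hs
        by_cases ha : a = y
        · rw [ha] at hab hs ⊢
          rcases (hy b).1 hab with h | h
          · rw [h, e1, e2 x hyx.symm, hroot]; exact hwu.symm
          · rw [h] at hs; exact absurd rfl hs
        by_cases hb : b = y
        · rw [hb] at hab hs ⊢
          rcases (hy a).1 hab.symm with h | h
          · rw [h, e1, e2 x hyx.symm, hroot]; exact hwu
          · rw [h] at hs; exact absurd Sym2.eq_swap hs
        rw [e2 a ha, e2 b hb]
        exact hhom a b ha hb hab
    have := hcop.step_adj ((hy x').2 (Or.inr rfl))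
    rw [e1, e2 x' hyx'.symm] at this
    exact this.symm

end Pool.Agent.Helper33.Boot
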